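import Pool.Agent.H57.TOR.Defs

/-!
AB (real linear maps of the plane).  `ab`: solve `a λ₁ + b conj λ₁ = μ₁`, `a λ₂ + b conj λ₂ = μ₂`: `Δ = λ₁ conj λ₂ - λ₂ conj λ₁ = - 2 I Im (conj λ₁ λ₂) ≠ 0`, `a = (μ₁ conj λ₂ - μ₂ conj λ₁) / Δ`, `b = (λ₁ μ₂ - λ₂ μ₁) / Δ`.
`Im (conj μ₁ μ₂) = (‖a‖² - ‖b‖²) Im (conj λ₁ λ₂)` and, as `μ₁ = x λ₁ + z λ₂`, `μ₂ = y λ₁ + t λ₂` (real coefficients), `Im (conj μ₁ μ₂) = (x t - y z) Im (conj λ₁ λ₂)`.  So `‖a‖² - ‖b‖² = x t - y z < 0`.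
`bd`: `V - T` is invariant under all `l d` and continuous; it is bounded on `closedBall 0 R` (`Lat.coc`).
-/

namespace TOR

open Metric Set Filter Topology DS

theorem AB_one (a b u v : ℂ) :
    ((starRingEnd ℂ) (a * u + b * (starRingEnd ℂ) u) * (a * v + b * (starRingEnd ℂ) v)).im =
      (‖a‖ ^ 2 - ‖b‖ ^ 2) * (u.re * v.im - u.im * v.re) := by
  simp only [Complex.sq_norm, Complex.normSq_apply, Complex.mul_im, Complex.mul_re, Complex.conj_re,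
    Complex.conj_im, Complex.add_re, Complex.add_im]
  ring

theorem AB_two (x y z t : ℝ) (u v : ℂ) :
    ((starRingEnd ℂ) ((x : ℂ) * u + (z : ℂ) * v) * ((y : ℂ) * u + (t : ℂ) * v)).im =
      (x * t - y * z) * (u.re * v.im - u.im * v.re) := by
  simp only [Complex.mul_im, Complex.mul_re, Complex.conj_re,
    Complex.conj_im, Complex.add_re, Complex.add_im, Complex.ofReal_re, Complex.ofReal_im]
  ring

theorem ab {u v μ₁ μ₂ : ℂ} (hu : u ≠ 0) (him : (v / u).im ≠ 0) {x y z t : ℤ}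
    (h1 : μ₁ = x * u + z * v) (h2 : μ₂ = y * u + t * v) (hdet : x * t - y * z < 0) :
    ∃ a b : ℂ, ‖a‖ < ‖b‖ ∧ a * u + b * (starRingEnd ℂ) u = μ₁ ∧ a * v + b * (starRingEnd ℂ) v = μ₂ := by
  have hI : u.re * v.im - u.im * v.re ≠ 0 := by
    intro h
    apply him
    rw [Complex.div_im]
    have h3 : v.im * u.re / Complex.normSq u - v.re * u.im / Complex.normSq u =
        (u.re * v.im - u.im * v.re) / Complex.normSq u := by ring
    rw [h3, h, zero_div]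
  have hD : u * (starRingEnd ℂ) v - v * (starRingEnd ℂ) u ≠ 0 := by
    intro h
    apply hI
    have h3 := congrArg Complex.im h
    simp only [Complex.sub_im, Complex.mul_im, Complex.conj_re, Complex.conj_im, Complex.zero_im] at h3
    linarith
  obtain ⟨a, ha⟩ : ∃ a, a = (μ₁ * (starRingEnd ℂ) v - μ₂ * (starRingEnd ℂ) u) /
    (u * (starRingEnd ℂ) v - v * (starRingEnd ℂ) u) := ⟨_, rfl⟩
  obtain ⟨b, hb⟩ : ∃ b, b = (u * μ₂ - v * μ₁) /
    (u * (starRingEnd ℂ) v - v * (starRingEnd ℂ) u) := ⟨_, rfl⟩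
  have e1 : a * u + b * (starRingEnd ℂ) u = μ₁ := by
    rw [ha, hb, div_mul_eq_mul_div, div_mul_eq_mul_div, ← add_div, div_eq_iff hD]; ring
  have e2 : a * v + b * (starRingEnd ℂ) v = μ₂ := by
    rw [ha, hb, div_mul_eq_mul_div, div_mul_eq_mul_div, ← add_div, div_eq_iff hD]; ring
  refine ⟨a, b, ?_, e1, e2⟩
  have k1 := AB_one a b u v
  have k2 := AB_two x y z t u v
  have e3 : ((x : ℝ) : ℂ) * u + ((z : ℝ) : ℂ) * v = μ₁ := by rw [h1]; push_cast; rfl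
  have e4 : ((y : ℝ) : ℂ) * u + ((t : ℝ) : ℂ) * v = μ₂ := by rw [h2]; push_cast; rfl
  rw [e1, e2] at k1
  rw [e3, e4, k1] at k2
  have k3 : ‖a‖ ^ 2 - ‖b‖ ^ 2 = x * t - y * z := mul_right_cancel₀ hI k2
  have k4 : ((x : ℝ) * t - y * z) < 0 := by exact_mod_cast hdet
  have k5 : ‖a‖ ^ 2 < ‖b‖ ^ 2 := by linarith
  exact (pow_lt_pow_iff_left₀ (norm_nonneg _) (norm_nonneg _) two_ne_zero).1 k5

theorem bd {Γ : Type} [Group Γ] {l : Γ → ℂ} (L : Lat l) {V T : ℂ → ℂ} (hV : Continuous V)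
    (hT : Continuous T) (hTa : ∀ x y, T (x + y) = T x + T y) (h : ∀ x d, V (x + l d) = V x + T (l d)) :
    ∃ C : ℝ, ∀ x, ‖V x - T x‖ ≤ C := by
  obtain ⟨R, hR⟩ := L.coc
  obtain ⟨C, hC⟩ := (isCompact_closedBall (0:ℂ) R).exists_bound_of_continuousOn
    (f := fun x => V x - T x) (hV.sub hT).continuousOn
  refine ⟨C, fun x => ?_⟩
  obtain ⟨g, hg⟩ := hR x
  have h1 := hC (x + l g) (by simpa using hg)
  have h2 : V (x + l g) - T (x + l g) = V x - T x := by rw [h, hTa]; ring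
  simp only [h2] at h1
  exact h1

end TOR
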