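import Mathlib

/-!
AM (integer matrices of size two).  `t = trace M`, Cayley-Hamilton: `M * M = t • M - 1`.
If `|t| ≥ 3`, `j = 2`: `det (M ^ 2 - 1) = 2 - trace (M ^ 2) = 4 - t ^ 2 < 0` (compute with the entries, using `a d - b c = 1`).
If `|t| ≤ 2`, `j = 12`: `t = 0`: `M ^ 4 = 1`; `t = 1`: `M ^ 3 = -1`; `t = -1`: `M ^ 3 = 1`; `t = ± 2`: `(M ^ 2 - 1) ^ 2 = (± 2 (M ∓ 1)) ^ 2 = 0`, and `M ^ 12 - 1 = (M ^ 2 - 1) * (polynomial in M)`.
So `(M ^ 12 - 1) ^ 2 = 0` in all these cases.
-/

namespace TOR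

theorem am_cases (M : Matrix (Fin 2) (Fin 2) ℤ) (h : M.det = 1) :
    ∃ j : ℕ, 0 < j ∧ ((M ^ j - 1).det < 0 ∨ (M ^ j - 1) * (M ^ j - 1) = 0) := by
  have hdet : M 0 0 * M 1 1 - M 0 1 * M 1 0 = 1 := by rw [← Matrix.det_fin_two]; exact h
  have hsq : M * M = (M 0 0 + M 1 1) • M - 1 := by
    ext i j
    simp only [Matrix.sub_apply, Matrix.smul_apply, smul_eq_mul, Matrix.mul_apply,
      Fin.sum_univ_two, Matrix.one_apply]
    fin_cases i <;> fin_cases j
    · norm_num; linear_combination -hdet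
    · norm_num; ring
    · norm_num; ring
    · norm_num; linear_combination -hdet
  set t := M 0 0 + M 1 1 with ht
  by_cases hbig : 3 ≤ |t|
  · refine ⟨2, two_pos, Or.inl ?_⟩
    have h1 : (M ^ 2 - 1).det = 4 - t ^ 2 := by
      rw [pow_two, Matrix.det_fin_two]
      simp only [Matrix.sub_apply, Matrix.mul_apply, Fin.sum_univ_two, Matrix.one_apply]
      simp only [ht]
      norm_num
      linear_combination (M 0 0 * M 1 1 - M 0 1 * M 1 0 + 3) * hdet
    rw [h1]
    have h2 : 9 ≤ t ^ 2 := by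
      rw [← sq_abs]; nlinarith
    linarith
  · have hle : -2 ≤ t ∧ t ≤ 2 := by
      push Not at hbig
      have := abs_lt.1 hbig
      constructor <;> linarith
    have hcases : t = -2 ∨ t = -1 ∨ t = 0 ∨ t = 1 ∨ t = 2 := by omega
    rcases hcases with h0 | h0 | h0 | h0 | h0
    · refine ⟨2, two_pos, Or.inr ?_⟩
      rw [h0] at hsq
      have e : M ^ 2 = (-2 : ℤ) • M - 1 := by rw [pow_two]; exact hsq
      have e1 : M ^ 2 - 1 = (-2 : ℤ) • (M + 1) := by
        rw [e]; noncomm_ring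
      have e2 : (M + 1) * (M + 1) = 0 := by
        have : (M + 1) * (M + 1) = M * M + (2 : ℤ) • M + 1 := by noncomm_ring
        rw [this, hsq]
        noncomm_ring
      rw [e1, smul_mul_smul_comm, e2, smul_zero]
    · refine ⟨3, three_pos, Or.inr ?_⟩
      rw [h0] at hsq
      have e : M ^ 3 = 1 := by
        rw [pow_succ, pow_two, hsq]
        have : ((-1 : ℤ) • M - 1) * M = -(M * M) - M := by noncomm_ring
        rw [this, hsq]
        noncomm_ring
      rw [e, sub_self, zero_mul]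
    · refine ⟨4, four_pos, Or.inr ?_⟩
      rw [h0] at hsq
      have e1 : M ^ 2 = -1 := by rw [pow_two, hsq]; simp
      have e : M ^ 4 = 1 := by
        rw [show 4 = 2 * 2 from rfl, pow_mul, e1]; simp
      rw [e, sub_self, zero_mul]
    · refine ⟨6, by norm_num, Or.inr ?_⟩
      rw [h0] at hsq
      have e3 : M ^ 3 = -1 := by
        rw [pow_succ, pow_two, hsq]
        have : ((1 : ℤ) • M - 1) * M = M * M - M := by noncomm_ring
        rw [this, hsq]
        noncomm_ring
      have e : M ^ 6 = 1 := by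
        rw [show 6 = 3 * 2 from rfl, pow_mul, e3]; simp
      rw [e, sub_self, zero_mul]
    · refine ⟨1, one_pos, Or.inr ?_⟩
      rw [h0] at hsq
      have : (M ^ 1 - 1) * (M ^ 1 - 1) = M * M - (2 : ℤ) • M + 1 := by
        rw [pow_one]; noncomm_ring
      rw [this, hsq]
      noncomm_ring

end TOR
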