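import Mathlib

/-!
AN (nilpotent integer matrices of size two).  If `N = 0` take the unit matrix and `n = 0`.  Otherwise `N * N = trace N • N - det N • 1`; `det N = 0` as `(det N) ^ 2 = det (N * N) = 0`, and then `trace N • N = 0`, so `trace N = 0`:
`N = !![a, b; c, -a]`, `a ^ 2 + b * c = 0`.  One of the columns of `N` is a nonzero vector of the kernel of `N` (`N * N = 0`); dividing it by the greatest common divisor of its entries we get a primitive vector
`(u, v)`, `N (u, v) = 0`, and by Bezout (`Int.gcd_eq_gcd_ab`) `u q - v r = 1` for some `(r, q)`; `E = !![u, r; v, q]`.  The vector `(x, y) = N (r, q)` is in the kernel of `N` (`N * N = 0`), and every vector `(x, y)` of the kernel satisfies `u y = v x`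
(the determinant `D = u y - v x` satisfies `D • N = 0`, because `N (u, v) = N (x, y) = 0`; `N ≠ 0`), so `(x, y) = n (u, v)` with `n = x q - y r`.
-/

namespace TOR

theorem AN_aux (a b c x0 y0 : ℤ) (h0 : x0 ≠ 0 ∨ y0 ≠ 0) (h1 : a * x0 + b * y0 = 0)
    (h2 : c * x0 - a * y0 = 0) :
    ∃ (E : Matrix (Fin 2) (Fin 2) ℤ) (n : ℤ), E.det = 1 ∧ !![a, b; c, -a] * E = E * !![0, n; 0, 0] := by
  have hg : Int.gcd x0 y0 ≠ 0 := by
    intro h
    rw [Int.gcd_eq_zero_iff] at h
    rcases h0 with h0 | h0
    · exact h0 h.1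
    · exact h0 h.2
  have hgpos : 0 < Int.gcd x0 y0 := Nat.pos_of_ne_zero hg
  obtain ⟨u, v, huv, hx, hy⟩ : ∃ u v : ℤ, Int.gcd u v = 1 ∧ x0 = u * (Int.gcd x0 y0 : ℤ) ∧
      y0 = v * (Int.gcd x0 y0 : ℤ) := by
    obtain ⟨u, v, h, hx, hy⟩ := Int.exists_gcd_one hgpos
    exact ⟨u, v, h, hx, hy⟩
  have hgz : ((Int.gcd x0 y0 : ℕ) : ℤ) ≠ 0 := by exact_mod_cast hg
  set g : ℤ := ((Int.gcd x0 y0 : ℕ) : ℤ) with hgdef
  have k1 : a * u + b * v = 0 := by
    have : (a * u + b * v) * g = 0 := by rw [hx, hy] at h1; linarith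
    exact (mul_eq_zero.1 this).resolve_right hgz
  have k2 : c * u - a * v = 0 := by
    have : (c * u - a * v) * g = 0 := by rw [hx, hy] at h2; linarith
    exact (mul_eq_zero.1 this).resolve_right hgz
  have hb := Int.gcd_eq_gcd_ab u v
  rw [huv] at hb
  push_cast at hb
  refine ⟨!![u, -(Int.gcdB u v); v, Int.gcdA u v],
    (a * (-(Int.gcdB u v)) + b * Int.gcdA u v) * Int.gcdA u v -
      (c * (-(Int.gcdB u v)) - a * Int.gcdA u v) * (-(Int.gcdB u v)), ?_, ?_⟩
  · rw [Matrix.det_fin_two_of]; linarith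
  · generalize Int.gcdA u v = q at hb ⊢
    generalize Int.gcdB u v = r at hb ⊢
    have e1 : u * (c * (-r) - a * q) = v * (a * (-r) + b * q) := by
      linear_combination (-r) * k2 - q * k1
    ext i j
    fin_cases i <;> fin_cases j <;> simp [Matrix.mul_apply, Fin.sum_univ_two]
    · linarith
    · linear_combination (a * (-r) + b * q) * hb - r * e1
    · linarith
    · linear_combination (c * (-r) - a * q) * hb + q * e1

theorem am_uni (N : Matrix (Fin 2) (Fin 2) ℤ) (h : N * N = 0) :
    ∃ (E : Matrix (Fin 2) (Fin 2) ℤ) (n : ℤ), E.det = 1 ∧ N * E = E * !![0, n; 0, 0] := by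
  have e00 := congrFun (congrFun h 0) 0
  have e01 := congrFun (congrFun h 0) 1
  have e10 := congrFun (congrFun h 1) 0
  have e11 := congrFun (congrFun h 1) 1
  simp [Matrix.mul_apply, Fin.sum_univ_two] at e00 e01 e10 e11
  obtain ⟨a, b, c, d, hN⟩ : ∃ a b c d : ℤ, N = !![a, b; c, d] :=
    ⟨N 0 0, N 0 1, N 1 0, N 1 1, by ext i j; fin_cases i <;> fin_cases j <;> rfl⟩
  subst hN
  simp at e00 e01 e10 e11
  have hd : d = -a := by
    by_contra hne
    have hs : a + d ≠ 0 := fun h => hne (by linarith)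
    have hb : b = 0 := by
      have : b * (a + d) = 0 := by linarith
      exact (mul_eq_zero.1 this).resolve_right hs
    have hc : c = 0 := by
      have : c * (a + d) = 0 := by linarith
      exact (mul_eq_zero.1 this).resolve_right hs
    subst hb hc
    have ha : a = 0 := by
      have : a * a = 0 := by linarith
      exact mul_self_eq_zero.1 this
    have hd : d = 0 := by
      have : d * d = 0 := by linarith
      exact mul_self_eq_zero.1 this
    exact hs (by rw [ha, hd]; rfl)
  subst hd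
  by_cases h1 : a ≠ 0 ∨ c ≠ 0
  · exact AN_aux a b c a c h1 (by linarith) (by ring)
  · push Not at h1
    obtain ⟨ha, hc⟩ := h1
    subst ha hc
    by_cases hb : b = 0
    · subst hb
      refine ⟨1, 0, by simp, ?_⟩
      ext i j
      fin_cases i <;> fin_cases j <;> simp
    · exact AN_aux 0 b 0 b 0 (Or.inl hb) (by ring) (by ring)

end TOR
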