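import Pool.Agent.H57.TOR.Defs
import Pool.Agent.H57.TOR.AM
import Pool.Agent.H57.TOR.AN

/-!
AG (automorphisms of the lattice).  `l (σ e₁) = a l e₁ + c l e₂`, `l (σ e₂) = b l e₁ + d l e₂` (`Bas.gen`), `M = !![a, b; c, d]`; for the inverse automorphism in the same way `M'`, and `M * M' = 1` (the coefficients are unique: `l e₁`, `l e₂` are linearly
independent over the reals, by `Bas.im`), so `det M = ± 1` and `det (M ^ 2) = 1`.  For every `j` the matrix `M ^ j` describes `σ^[j]` (induction; `l (σ g) = x l (σ e₁) + y l (σ e₂)` if `l g = x l e₁ + y l e₂`: the homomorphism `σ` and injectivity of `l`; `Lat.mul`).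
Apply `am_cases` to `M ^ 2`: exponent `2 j`.  In the first case `!![a, b; c, d] = M ^ (2 j) - 1`.  In the second case `am_uni` for `N = M ^ (2 j) - 1` gives `E = !![u, r; v, q]`, and `f₁ = e₁ ^ u * e₂ ^ v`, `f₂ = e₁ ^ r * e₂ ^ q` satisfy
`l f₁ = u l e₁ + v l e₂`, `l f₂ = r l e₁ + q l e₂`; `Bas l f₁ f₂`: `det E = 1` (`E` is invertible over the integers; `l f₁ ≠ 0` by independence, `Im (l f₂ / l f₁) ≠ 0`: `Im (l f₂ conj (l f₁)) = det E * Im (l e₂ conj (l e₁))`).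
`N f₁ = 0`: `l (σ^[2j] f₁) = l f₁`, so `σ^[2j] f₁ = f₁`; `N f₂ = n f₁`.
-/

namespace TOR

open Function

theorem AG_one {Γ : Type} [Group Γ] {l : Γ → ℂ} (L : Lat l) : l 1 = 0 := by
  have h := L.mul 1 1
  rw [mul_one] at h
  linear_combination -h

theorem AG_inv {Γ : Type} [Group Γ] {l : Γ → ℂ} (L : Lat l) (g : Γ) : l g⁻¹ = - l g := by
  have h := L.mul g g⁻¹
  rw [mul_inv_cancel, AG_one L] at h
  linear_combination -h

theorem AG_pow {Γ : Type} [Group Γ] {l : Γ → ℂ} (L : Lat l) (g : Γ) (n : ℕ) : l (g ^ n) = n * l g := by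
  induction n with
  | zero => simp [AG_one L]
  | succ n ih =>
    rw [pow_succ, L.mul, ih]
    push_cast
    ring

theorem AG_zpow {Γ : Type} [Group Γ] {l : Γ → ℂ} (L : Lat l) (g : Γ) (n : ℤ) : l (g ^ n) = n * l g := by
  obtain ⟨m, rfl | rfl⟩ := n.eq_nat_or_neg
  · rw [zpow_natCast, AG_pow L]
    simp
  · rw [zpow_neg, zpow_natCast, AG_inv L, AG_pow L]
    push_cast
    ring

theorem AG_ind {Γ : Type} {l : Γ → ℂ} {e₁ e₂ : Γ} (B : Bas l e₁ e₂) {x y : ℝ}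
    (h : (x : ℂ) * l e₁ + y * l e₂ = 0) : x = 0 ∧ y = 0 := by
  have h1 : (y : ℂ) * (l e₂ / l e₁) = ((-x : ℝ) : ℂ) := by
    have := B.ne
    field_simp
    push_cast
    linear_combination h
  have h2 : y * (l e₂ / l e₁).im = 0 := by
    have := congrArg Complex.im h1
    rw [Complex.im_ofReal_mul, Complex.ofReal_im] at this
    exact this
  have hy : y = 0 := by
    rcases mul_eq_zero.1 h2 with h3 | h3
    · exact h3
    · exact absurd h3 B.im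
  subst hy
  have h3 : (x : ℂ) * l e₁ = 0 := by simpa using h
  rcases mul_eq_zero.1 h3 with h4 | h4
  · exact ⟨by exact_mod_cast h4, rfl⟩
  · exact absurd h4 B.ne

theorem AG_uniq {Γ : Type} {l : Γ → ℂ} {e₁ e₂ : Γ} (B : Bas l e₁ e₂) {x y x' y' : ℤ}
    (h : (x : ℂ) * l e₁ + y * l e₂ = x' * l e₁ + y' * l e₂) : x = x' ∧ y = y' := by
  have h1 : (((x : ℝ) - x' : ℝ) : ℂ) * l e₁ + (((y : ℝ) - y' : ℝ) : ℂ) * l e₂ = 0 := by
    push_cast
    linear_combination h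
  obtain ⟨h2, h3⟩ := AG_ind B h1
  constructor
  · exact_mod_cast sub_eq_zero.1 h2
  · exact_mod_cast sub_eq_zero.1 h3

/-- the matrix of a map -/
def AG_R {Γ : Type} (l : Γ → ℂ) (e₁ e₂ : Γ) (M : Matrix (Fin 2) (Fin 2) ℤ) (t : Γ → Γ) : Prop :=
  l (t e₁) = M 0 0 * l e₁ + M 1 0 * l e₂ ∧ l (t e₂) = M 0 1 * l e₁ + M 1 1 * l e₂

theorem AG_exists {Γ : Type} {l : Γ → ℂ} {e₁ e₂ : Γ} (B : Bas l e₁ e₂) (t : Γ → Γ) :
    ∃ M, AG_R l e₁ e₂ M t := by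
  obtain ⟨a, c, h1⟩ := B.gen (t e₁)
  obtain ⟨b, d, h2⟩ := B.gen (t e₂)
  refine ⟨!![a, b; c, d], ?_, ?_⟩
  · simpa using h1
  · simpa using h2

theorem AG_Runiq {Γ : Type} {l : Γ → ℂ} {e₁ e₂ : Γ} (B : Bas l e₁ e₂) {t : Γ → Γ}
    {M N : Matrix (Fin 2) (Fin 2) ℤ} (h : AG_R l e₁ e₂ M t) (h' : AG_R l e₁ e₂ N t) : M = N := by
  obtain ⟨h1, h2⟩ := AG_uniq B (h.1.symm.trans h'.1)
  obtain ⟨h3, h4⟩ := AG_uniq B (h.2.symm.trans h'.2)
  ext i j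
  fin_cases i <;> fin_cases j <;> assumption

theorem AG_lin {Γ : Type} [Group Γ] {l : Γ → ℂ} (L : Lat l) {e₁ e₂ : Γ} {t : Γ → Γ}
    (ht : ∀ g h, t (g * h) = t g * t h) {g : Γ} {x y : ℤ} (h : l g = x * l e₁ + y * l e₂) :
    l (t g) = x * l (t e₁) + y * l (t e₂) := by
  have h1 : g = e₁ ^ x * e₂ ^ y := by
    apply L.inj
    rw [L.mul, AG_zpow L, AG_zpow L, h]
  have h2 : t g = t e₁ ^ x * t e₂ ^ y := by
    have h3 : MonoidHom.mk' t ht g = MonoidHom.mk' t ht e₁ ^ x * MonoidHom.mk' t ht e₂ ^ y := by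
      rw [← map_zpow, ← map_zpow, ← map_mul, ← h1]
    exact h3
  rw [h2, L.mul, AG_zpow L, AG_zpow L]

theorem AG_comp {Γ : Type} [Group Γ] {l : Γ → ℂ} (L : Lat l) {e₁ e₂ : Γ} {t r : Γ → Γ}
    (ht : ∀ g h, t (g * h) = t g * t h) {M N : Matrix (Fin 2) (Fin 2) ℤ}
    (h : AG_R l e₁ e₂ M t) (h' : AG_R l e₁ e₂ N r) : AG_R l e₁ e₂ (M * N) (t ∘ r) := by
  constructor
  · rw [Function.comp_apply, AG_lin L ht h'.1, h.1, h.2]
    simp only [Matrix.mul_apply, Fin.sum_univ_two]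
    push_cast
    ring
  · rw [Function.comp_apply, AG_lin L ht h'.2, h.1, h.2]
    simp only [Matrix.mul_apply, Fin.sum_univ_two]
    push_cast
    ring

theorem AG_id {Γ : Type} (l : Γ → ℂ) (e₁ e₂ : Γ) : AG_R l e₁ e₂ 1 id := by
  constructor
  · simp
  · simp

theorem AG_iter {Γ : Type} [Group Γ] {l : Γ → ℂ} (L : Lat l) {e₁ e₂ : Γ} (σ : Γ ≃* Γ)
    {M : Matrix (Fin 2) (Fin 2) ℤ} (h : AG_R l e₁ e₂ M σ) (j : ℕ) : AG_R l e₁ e₂ (M ^ j) (σ^[j]) := by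
  induction j with
  | zero =>
    rw [pow_zero, Function.iterate_zero]
    exact AG_id l e₁ e₂
  | succ j ih =>
    rw [pow_succ', Function.iterate_succ']
    exact AG_comp L (fun g h => map_mul σ g h) h ih

theorem AG_det {Γ : Type} [Group Γ] {l : Γ → ℂ} (L : Lat l) {e₁ e₂ : Γ} (B : Bas l e₁ e₂) (σ : Γ ≃* Γ)
    {M : Matrix (Fin 2) (Fin 2) ℤ} (h : AG_R l e₁ e₂ M σ) : (M ^ 2).det = 1 := by
  obtain ⟨N, hN⟩ := AG_exists B (σ.symm : Γ → Γ)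
  have h1 := AG_comp L (fun g h => map_mul σ g h) h hN
  have h2 : (σ : Γ → Γ) ∘ (σ.symm : Γ → Γ) = id := by
    funext g
    simp
  rw [h2] at h1
  have h3 : M * N = 1 := AG_Runiq B h1 (AG_id l e₁ e₂)
  have h4 : M.det * N.det = 1 := by
    rw [← Matrix.det_mul, h3, Matrix.det_one]
  have h5 : IsUnit M.det := IsUnit.of_mul_eq_one _ h4
  rw [Matrix.det_pow]
  rcases Int.isUnit_iff.1 h5 with h6 | h6 <;> rw [h6] <;> norm_num

theorem AG_bas {Γ : Type} [Group Γ] {l : Γ → ℂ} {e₁ e₂ : Γ} (B : Bas l e₁ e₂)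
    {E : Matrix (Fin 2) (Fin 2) ℤ} (hE : E.det = 1) {f₁ f₂ : Γ} (h₁ : l f₁ = E 0 0 * l e₁ + E 1 0 * l e₂)
    (h₂ : l f₂ = E 0 1 * l e₁ + E 1 1 * l e₂) : Bas l f₁ f₂ := by
  rw [Matrix.det_fin_two] at hE
  have hEr : (E 0 0 : ℝ) * E 1 1 - E 0 1 * E 1 0 = 1 := by exact_mod_cast hE
  have hEc : (E 0 0 : ℂ) * E 1 1 - E 0 1 * E 1 0 = 1 := by exact_mod_cast hE
  have hne : l f₁ ≠ 0 := by
    intro h
    have h1 : ((E 0 0 : ℝ) : ℂ) * l e₁ + ((E 1 0 : ℝ) : ℂ) * l e₂ = 0 := by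
      push_cast
      rw [← h₁, h]
    obtain ⟨h2, h3⟩ := AG_ind B h1
    rw [h2, h3] at hEr
    norm_num at hEr
  refine ⟨hne, ?_, ?_⟩
  · intro h
    have h4 : l f₂ / l f₁ = (((l f₂ / l f₁).re : ℝ) : ℂ) := by
      apply Complex.ext
      · simp
      · simpa using h
    set t : ℝ := (l f₂ / l f₁).re with ht
    have h5 : l f₂ = t * l f₁ := by
      rw [← h4]
      field_simp
    have h6 : (((E 0 1 : ℝ) - t * E 0 0 : ℝ) : ℂ) * l e₁ + (((E 1 1 : ℝ) - t * E 1 0 : ℝ) : ℂ) * l e₂ = 0 := by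
      rw [h₁, h₂] at h5
      push_cast
      linear_combination h5
    obtain ⟨h7, h8⟩ := AG_ind B h6
    have h9 : (0 : ℝ) = 1 := by
      linear_combination (E 1 0 : ℝ) * h7 - (E 0 0 : ℝ) * h8 + hEr
    norm_num at h9
  · intro g
    obtain ⟨a, b, h⟩ := B.gen g
    refine ⟨E 1 1 * a - E 0 1 * b, - E 1 0 * a + E 0 0 * b, ?_⟩
    rw [h, h₁, h₂]
    push_cast
    linear_combination (-(a : ℂ) * l e₁ - (b : ℂ) * l e₂) * hEc

theorem ag {Γ : Type} [Group Γ] {l : Γ → ℂ} (L : Lat l) {e₁ e₂ : Γ} (B : Bas l e₁ e₂) (σ : Γ ≃* Γ) :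
    ∃ j : ℕ, 0 < j ∧
      ((∃ f₁ f₂ : Γ, ∃ n : ℤ, Bas l f₁ f₂ ∧ σ^[j] f₁ = f₁ ∧ l (σ^[j] f₂) = l f₂ + n * l f₁) ∨
      ∃ a b c d : ℤ, l (σ^[j] e₁) = l e₁ + (a * l e₁ + c * l e₂) ∧
        l (σ^[j] e₂) = l e₂ + (b * l e₁ + d * l e₂) ∧ a * d - b * c < 0) := by
  obtain ⟨M, hM⟩ := AG_exists B (σ : Γ → Γ)
  have hdet := AG_det L B σ hM
  obtain ⟨j, hj, hc⟩ := am_cases (M ^ 2) hdet
  have hP := AG_iter L σ hM (2 * j)
  rw [pow_mul] at hP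
  set P : Matrix (Fin 2) (Fin 2) ℤ := (M ^ 2) ^ j with hPdef
  have hτ : ∀ g h, σ^[2 * j] (g * h) = σ^[2 * j] g * σ^[2 * j] h := fun g h => iterate_map_mul σ (2 * j) g h
  refine ⟨2 * j, by omega, ?_⟩
  rcases hc with hc | hc
  · right
    refine ⟨P 0 0 - 1, P 0 1, P 1 0, P 1 1 - 1, ?_, ?_, ?_⟩
    · rw [hP.1]
      push_cast
      ring
    · rw [hP.2]
      push_cast
      ring
    · rw [Matrix.det_fin_two] at hc
      simpa using hc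
  · left
    obtain ⟨E, n, hE, hEn⟩ := am_uni (P - 1) hc
    have hPE : P * E = E + E * !![0, n; 0, 0] := by
      rw [← hEn, sub_mul, one_mul]
      abel
    have q00 : P 0 0 * E 0 0 + P 0 1 * E 1 0 = E 0 0 := by
      have := congrFun (congrFun hPE 0) 0
      simpa [Matrix.mul_apply, Fin.sum_univ_two] using this
    have q10 : P 1 0 * E 0 0 + P 1 1 * E 1 0 = E 1 0 := by
      have := congrFun (congrFun hPE 1) 0
      simpa [Matrix.mul_apply, Fin.sum_univ_two] using this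
    have q01 : P 0 0 * E 0 1 + P 0 1 * E 1 1 = E 0 1 + E 0 0 * n := by
      have := congrFun (congrFun hPE 0) 1
      simpa [Matrix.mul_apply, Fin.sum_univ_two] using this
    have q11 : P 1 0 * E 0 1 + P 1 1 * E 1 1 = E 1 1 + E 1 0 * n := by
      have := congrFun (congrFun hPE 1) 1
      simpa [Matrix.mul_apply, Fin.sum_univ_two] using this
    have c00 : (P 0 0 : ℂ) * E 0 0 + P 0 1 * E 1 0 = E 0 0 := by exact_mod_cast q00
    have c10 : (P 1 0 : ℂ) * E 0 0 + P 1 1 * E 1 0 = E 1 0 := by exact_mod_cast q10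
    have c01 : (P 0 0 : ℂ) * E 0 1 + P 0 1 * E 1 1 = E 0 1 + E 0 0 * n := by exact_mod_cast q01
    have c11 : (P 1 0 : ℂ) * E 0 1 + P 1 1 * E 1 1 = E 1 1 + E 1 0 * n := by exact_mod_cast q11
    have h₁ : l (e₁ ^ (E 0 0) * e₂ ^ (E 1 0)) = E 0 0 * l e₁ + E 1 0 * l e₂ := by
      rw [L.mul, AG_zpow L, AG_zpow L]
    have h₂ : l (e₁ ^ (E 0 1) * e₂ ^ (E 1 1)) = E 0 1 * l e₁ + E 1 1 * l e₂ := by
      rw [L.mul, AG_zpow L, AG_zpow L]
    refine ⟨e₁ ^ (E 0 0) * e₂ ^ (E 1 0), e₁ ^ (E 0 1) * e₂ ^ (E 1 1), n, AG_bas B hE h₁ h₂, ?_, ?_⟩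
    · apply L.inj
      rw [AG_lin L hτ h₁, hP.1, hP.2, h₁]
      linear_combination l e₁ * c00 + l e₂ * c10
    · rw [AG_lin L hτ h₂, hP.1, hP.2, h₁, h₂]
      linear_combination l e₁ * c01 + l e₂ * c11

end TOR
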