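import Pool.Agent.H57.TOR.ST

/-!
C1 (the case `Z = ℤ e₁ + ℤ e₂`).  Replacing `e₂` by `- e₂` we may assume `τ = e₂ / e₁`, `Im τ > 0`.  `V₁ ζ = V (e₁ ζ)` is invariant under `1` and `τ`, with zeros
`k i / e₁ + a + b τ`.  Choose `y₁` not in the countable set of the numbers `Im (k i / e₁) + b Im τ`, `y₂ = y₁ + Im τ`, and for each `i` the integer `b i` with
`y₁ < Im (κ i) < y₂`, `κ i = k i / e₁ + b i τ` (`b i = ⌈(y₁ - Im (k i / e₁)) / Im τ⌉`).  Let `V₂ ζ = V₁ (Re ζ + I * clamp (Im ζ))`, `clamp y = max y₁ (min y y₂)`.  Then `V₂` is continuous, `V₂ (ζ + 1) = V₂ ζ`, and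
`V₂ ζ = 0` iff `ζ' + a + b τ = κ i` for the clamped point `ζ'`; as `Im ζ' ∈ [y₁, y₂]`, `Im (κ i) ∈ (y₁, y₂)`, we get `b = 0`, so `Im ζ' = Im (κ i)` is in the open interval and `ζ' = ζ`.
So `Field (zmultiples 1) V₂ m κ` (`ne`: `κ i - κ j = a` gives `k i - k j = a e₁ + (b j - b i) e₂ ∈ Z`; `loc`: near `κ i` `V₂ ζ = V₁ ζ = V (e₁ ζ - b i e₂) = (ζ - κ i) * e₁ * q (e₁ ζ - b i e₂)`).
The function `ζ ↦ V₁ (Re ζ + y₁ I)` is continuous and has no zero, so it has a continuous logarithm `L` (`lg_exists`), `f₁ s = L s`, `f₂ s = f₁ (s - Re τ)`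
(`V₁ (s + y₂ I) = V₁ (s + y₂ I - τ) = V₁ ((s - Re τ) + y₁ I)`), `w` from `lg_per`.  `ST` gives `m = 0`.
-/

namespace TOR

open Metric Set Filter Topology DS

/-- the clamp of the imaginary part -/
noncomputable def C1_cl (y₁ y₂ : ℝ) (ζ : ℂ) : ℂ := (ζ.re : ℂ) + (max y₁ (min ζ.im y₂) : ℝ) * Complex.I

theorem C1_cl_cont (y₁ y₂ : ℝ) : Continuous (C1_cl y₁ y₂) := by
  unfold C1_cl
  fun_prop

theorem C1_cl_im (y₁ y₂ : ℝ) (ζ : ℂ) : (C1_cl y₁ y₂ ζ).im = max y₁ (min ζ.im y₂) := by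
  simp [C1_cl]

theorem C1_cl_re (y₁ y₂ : ℝ) (ζ : ℂ) : (C1_cl y₁ y₂ ζ).re = ζ.re := by
  simp [C1_cl]

theorem C1_cl_eq {y₁ y₂ : ℝ} {ζ : ℂ} (h1 : y₁ ≤ ζ.im) (h2 : ζ.im ≤ y₂) : C1_cl y₁ y₂ ζ = ζ := by
  apply Complex.ext
  · rw [C1_cl_re]
  · rw [C1_cl_im, min_eq_left h2, max_eq_right h1]

theorem C1_cl_add (y₁ y₂ : ℝ) (ζ : ℂ) (n : ℤ) : C1_cl y₁ y₂ (ζ + n) = C1_cl y₁ y₂ ζ + n := by
  apply Complex.ext
  · simp [C1_cl_re]
  · rw [C1_cl_im, Complex.add_im, Complex.add_im, C1_cl_im]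
    simp

theorem C1_pos {m : ℕ} {Z : AddSubgroup ℂ} {V : ℂ → ℂ} {k : Fin m → ℂ} (F : Field Z V m k)
    {e₁ e₂ : ℂ} (h1 : e₁ ≠ 0) (him : 0 < (e₂ / e₁).im)
    (hZ : ∀ z, z ∈ Z ↔ ∃ a b : ℤ, z = a * e₁ + b * e₂) : m = 0 := by
  set τ := e₂ / e₁ with hτ
  have he2 : e₂ = τ * e₁ := by rw [hτ]; field_simp
  set V₁ : ℂ → ℂ := fun ζ => V (e₁ * ζ) with hV₁
  have hV₁c : Continuous V₁ := F.cont.comp (by fun_prop)
  have hper : ∀ (a b : ℤ) (ζ : ℂ), V₁ (ζ + a + b * τ) = V₁ ζ := by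
    intro a b ζ
    simp only [hV₁]
    have : e₁ * (ζ + a + b * τ) = e₁ * ζ + (a * e₁ + b * e₂) := by rw [he2]; ring
    rw [this]
    exact F.inv _ ((hZ _).2 ⟨a, b, rfl⟩) _
  have hzero : ∀ ζ, V₁ ζ = 0 ↔ ∃ (a b : ℤ) (i : Fin m), ζ + a + b * τ = k i / e₁ := by
    intro ζ
    simp only [hV₁]
    rw [F.zero]
    constructor
    · rintro ⟨z, hz, i, h⟩
      obtain ⟨a, b, rfl⟩ := (hZ z).1 hz
      refine ⟨a, b, i, ?_⟩
      rw [← h, he2]
      field_simp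
      ring
    · rintro ⟨a, b, i, h⟩
      refine ⟨a * e₁ + b * e₂, (hZ _).2 ⟨a, b, rfl⟩, i, ?_⟩
      have h2 : k i = (ζ + a + b * τ) * e₁ := by rw [h]; field_simp
      rw [h2, he2]
      ring
  -- a good height
  obtain ⟨y₁, hy₁⟩ : ∃ y₁ : ℝ, ∀ (i : Fin m) (b : ℤ), y₁ ≠ (k i / e₁).im + b * τ.im := by
    have hS : (range fun x : Fin m × ℤ => (k x.1 / e₁).im + x.2 * τ.im).Countable :=
      countable_range _
    obtain ⟨y, hy⟩ := (hS.dense_compl ℝ).nonempty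
    exact ⟨y, fun i b h => hy ⟨(i, b), h.symm⟩⟩
  set y₂ : ℝ := y₁ + τ.im with hy₂
  have hy12 : y₁ < y₂ := by rw [hy₂]; linarith
  set bb : Fin m → ℤ := fun i => ⌈(y₁ - (k i / e₁).im) / τ.im⌉ with hbb
  set κ : Fin m → ℂ := fun i => k i / e₁ + bb i * τ with hκ
  have hκim : ∀ i, (κ i).im = (k i / e₁).im + bb i * τ.im := by
    intro i
    simp [hκ]
  have hκ1 : ∀ i, y₁ < (κ i).im := by
    intro i
    rw [hκim]
    have h2 : (y₁ - (k i / e₁).im) / τ.im ≤ bb i := Int.le_ceil _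
    rw [div_le_iff₀ him] at h2
    have h3 : y₁ ≤ (k i / e₁).im + bb i * τ.im := by linarith
    exact lt_of_le_of_ne h3 (hy₁ i (bb i))
  have hκ2 : ∀ i, (κ i).im < y₂ := by
    intro i
    rw [hκim]
    have h2 : (bb i : ℝ) < (y₁ - (k i / e₁).im) / τ.im + 1 := Int.ceil_lt_add_one _
    have h3 : (bb i : ℝ) * τ.im < ((y₁ - (k i / e₁).im) / τ.im + 1) * τ.im :=
      mul_lt_mul_of_pos_right h2 him
    have h4 : ((y₁ - (k i / e₁).im) / τ.im + 1) * τ.im = y₁ - (k i / e₁).im + τ.im := by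
      field_simp
    rw [h4] at h3
    rw [hy₂]
    linarith
  set V₂ : ℂ → ℂ := fun ζ => V₁ (C1_cl y₁ y₂ ζ) with hV₂
  have hclim : ∀ ζ, y₁ ≤ (C1_cl y₁ y₂ ζ).im ∧ (C1_cl y₁ y₂ ζ).im ≤ y₂ := by
    intro ζ
    rw [C1_cl_im]
    exact ⟨le_max_left _ _, max_le hy12.le (min_le_right _ _)⟩
  have hF : Field (AddSubgroup.zmultiples (1 : ℂ)) V₂ m κ := by
    refine ⟨hV₁c.comp (C1_cl_cont _ _), ?_, ?_, ?_, ?_⟩
    · rintro z hz x
      obtain ⟨n, rfl⟩ := AddSubgroup.mem_zmultiples_iff.1 hz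
      simp only [hV₂, zsmul_eq_mul, mul_one]
      rw [C1_cl_add]
      have := hper n 0 (C1_cl y₁ y₂ x)
      simpa using this
    · intro ζ
      constructor
      · intro h
        obtain ⟨a, b, i, h2⟩ := (hzero _).1 h
        have h3 : C1_cl y₁ y₂ ζ + a + ((b + bb i : ℤ) : ℂ) * τ = κ i := by
          simp only [hκ]
          rw [← h2]
          push_cast
          ring
        have h4 := congrArg Complex.im h3
        have h5 : (C1_cl y₁ y₂ ζ + a + ((b + bb i : ℤ) : ℂ) * τ).im =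
            (C1_cl y₁ y₂ ζ).im + ((b + bb i : ℤ) : ℝ) * τ.im := by
          simp
        rw [h5] at h4
        obtain ⟨c1, c2⟩ := hclim ζ
        have c3 := hκ1 i
        have c4 := hκ2 i
        have hb0 : b + bb i = 0 := by
          have e1 : ((b + bb i : ℤ) : ℝ) * τ.im < 1 * τ.im := by linarith
          have e2 : (-1 : ℝ) * τ.im < ((b + bb i : ℤ) : ℝ) * τ.im := by linarith
          have e3 := lt_of_mul_lt_mul_right e1 him.le
          have e4 := lt_of_mul_lt_mul_right e2 him.le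
          have e5 : b + bb i < 1 := by exact_mod_cast e3
          have e6 : -1 < b + bb i := by exact_mod_cast e4
          omega
        rw [hb0] at h3 h4
        simp only [Int.cast_zero, zero_mul, add_zero] at h3 h4
        have hcl : C1_cl y₁ y₂ ζ = ζ := by
          rw [C1_cl_im] at h4
          have e1 : y₁ < min ζ.im y₂ := by
            by_contra hcon
            push Not at hcon
            rw [max_eq_left hcon] at h4
            linarith
          rw [max_eq_right e1.le] at h4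
          have e2 : ζ.im < y₂ := by
            by_contra hcon
            push Not at hcon
            rw [min_eq_right hcon] at h4
            linarith
          exact C1_cl_eq (by rw [min_eq_left e2.le] at e1; exact e1.le) e2.le
        rw [hcl] at h3
        exact ⟨a, AddSubgroup.mem_zmultiples_iff.2 ⟨a, by simp⟩, i, h3⟩
      · rintro ⟨z, hz, i, h⟩
        obtain ⟨n, rfl⟩ := AddSubgroup.mem_zmultiples_iff.1 hz
        rw [zsmul_eq_mul, mul_one] at h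
        have h4 := congrArg Complex.im h
        have h5 : (ζ + (n : ℂ)).im = ζ.im := by simp
        rw [h5] at h4
        have hcl : C1_cl y₁ y₂ ζ = ζ := C1_cl_eq (by rw [h4]; exact (hκ1 i).le)
          (by rw [h4]; exact (hκ2 i).le)
        show V₁ (C1_cl y₁ y₂ ζ) = 0
        rw [hcl, hzero]
        refine ⟨n, -bb i, i, ?_⟩
        rw [h]
        simp only [hκ]
        push_cast
        ring
    · intro i j hij
      obtain ⟨n, hn⟩ := AddSubgroup.mem_zmultiples_iff.1 hij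
      apply F.ne
      rw [hZ]
      refine ⟨n, bb j - bb i, ?_⟩
      rw [zsmul_eq_mul, mul_one] at hn
      simp only [hκ] at hn
      have h2 : (n : ℂ) * e₁ = (k i / e₁ + bb i * τ - (k j / e₁ + bb j * τ)) * e₁ := by rw [hn]
      rw [h2, he2]
      push_cast
      field_simp
      ring
    · intro i
      obtain ⟨q, hq, hq0, hqe⟩ := F.loc i
      refine ⟨fun ζ => e₁ * q (e₁ * ζ - bb i * e₂), by fun_prop, fun ζ => mul_ne_zero h1 (hq0 _), ?_⟩
      have ht : Tendsto (fun ζ : ℂ => e₁ * ζ - bb i * e₂) (𝓝 (κ i)) (𝓝 (k i)) := by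
        have hc : Continuous (fun ζ : ℂ => e₁ * ζ - bb i * e₂) := by fun_prop
        have h2 := hc.tendsto (κ i)
        have h3 : e₁ * κ i - bb i * e₂ = k i := by
          simp only [hκ]
          rw [he2]
          field_simp
          ring
        rw [h3] at h2
        exact h2
      have hu : ∀ᶠ ζ in 𝓝 (κ i), y₁ < ζ.im ∧ ζ.im < y₂ :=
        Filter.Eventually.and ((isOpen_lt continuous_const Complex.continuous_im).mem_nhds (hκ1 i))
          ((isOpen_lt Complex.continuous_im continuous_const).mem_nhds (hκ2 i))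
      filter_upwards [ht.eventually hqe, hu] with ζ hζ hζ2
      show V₁ (C1_cl y₁ y₂ ζ) = _
      rw [C1_cl_eq hζ2.1.le hζ2.2.le]
      have h2 := hper 0 (-bb i) ζ
      rw [← h2]
      show V (e₁ * (ζ + ((0:ℤ):ℂ) + ((-bb i : ℤ) : ℂ) * τ)) = _
      have h3 : e₁ * (ζ + ((0:ℤ):ℂ) + ((-bb i : ℤ) : ℂ) * τ) = e₁ * ζ - bb i * e₂ := by
        rw [he2]
        push_cast
        ring
      rw [h3, hζ]
      have h4 : e₁ * ζ - bb i * e₂ - k i = e₁ * (ζ - κ i) := by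
        simp only [hκ]
        rw [he2]
        field_simp
        ring
      rw [h4]
      ring
  -- logarithms
  have hu0 : ∀ ζ : ℂ, V₁ ((ζ.re : ℂ) + y₁ * Complex.I) ≠ 0 := by
    intro ζ h
    obtain ⟨a, b, i, h2⟩ := (hzero _).1 h
    have h3 := congrArg Complex.im h2
    have h4 : ((ζ.re : ℂ) + y₁ * Complex.I + a + b * τ).im = y₁ + b * τ.im := by simp
    rw [h4] at h3
    apply hy₁ i (-b)
    push_cast
    linarith
  obtain ⟨L, hL, hLe⟩ := lg_exists (f := fun ζ : ℂ => V₁ ((ζ.re : ℂ) + y₁ * Complex.I))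
    (hV₁c.comp (by fun_prop)) hu0
  have hcl1 : ∀ s : ℝ, C1_cl y₁ y₂ (s + y₁ * Complex.I) = s + y₁ * Complex.I := fun s =>
    C1_cl_eq (by simp) (by simp [hy12.le])
  have hcl2 : ∀ s : ℝ, C1_cl y₁ y₂ (s + y₂ * Complex.I) = s + y₂ * Complex.I := fun s =>
    C1_cl_eq (by simp [hy12.le]) (by simp)
  have hLs : ∀ s : ℝ, V₁ ((s : ℂ) + y₁ * Complex.I) = Complex.exp (L s) := by
    intro s
    have := hLe s
    simpa using this
  have hf₁c : Continuous fun s : ℝ => L s := hL.comp Complex.continuous_ofReal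
  obtain ⟨w, hw⟩ := lg_per (f := fun s : ℝ => L s) hf₁c (by
    intro s
    rw [← hLs, ← hLs]
    have := hper 1 0 ((s : ℂ) + y₁ * Complex.I)
    rw [← this]
    congr 1
    push_cast
    ring)
  refine st hF hκ1 hκ2 (f₁ := fun s : ℝ => L s) (f₂ := fun s : ℝ => L ((s - τ.re : ℝ) : ℂ)) hf₁c
    (hf₁c.comp (by fun_prop)) ?_ ?_ (w := w) hw ?_
  · intro s
    show V₁ (C1_cl y₁ y₂ (s + y₁ * Complex.I)) = _
    rw [hcl1, hLs]
  · intro s
    show V₁ (C1_cl y₁ y₂ (s + y₂ * Complex.I)) = _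
    rw [hcl2, ← hLs, ← hper 0 1 (((s - τ.re : ℝ) : ℂ) + y₁ * Complex.I)]
    congr 1
    apply Complex.ext
    · simp
    · simp [hy₂]
  · intro s
    have := hw (s - τ.re)
    rw [← this]
    congr 2
    ring

theorem c1 {m : ℕ} {Z : AddSubgroup ℂ} {V : ℂ → ℂ} {k : Fin m → ℂ} (F : Field Z V m k) {e₁ e₂ : ℂ}
    (h1 : e₁ ≠ 0) (him : (e₂ / e₁).im ≠ 0) (hZ : ∀ z, z ∈ Z ↔ ∃ a b : ℤ, z = a * e₁ + b * e₂) :
    m = 0 := by
  rcases lt_or_gt_of_ne him with h | h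
  · refine C1_pos F h1 (e₂ := -e₂) (by rw [neg_div, Complex.neg_im]; linarith) ?_
    intro z
    rw [hZ]
    constructor
    · rintro ⟨a, b, rfl⟩
      exact ⟨a, -b, by push_cast; ring⟩
    · rintro ⟨a, b, rfl⟩
      exact ⟨a, -b, by push_cast; ring⟩
  · exact C1_pos F h1 h hZ

end TOR
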