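import Pool.Agent.H57.TOR.ST

/-!
C2 (the case `Z = ℤ e₁`, `V x = n t(x) e₁ + O(1)`, `t(x) = Im (x / e₁) / Im (e₂ / e₁)`, on `|Im (x / e₁)| ≥ T`).  `V₁ ζ = V (e₁ ζ)` is `1`-periodic with zeros `κ i = k i / e₁` modulo `1`:
`Field (zmultiples 1) V₁ m κ` (`loc`: `V₁ ζ = (ζ - κ i) * e₁ * q (e₁ ζ)`).  For `ζ = s + y I`, `|y| ≥ T`: `‖V₁ ζ / e₁ - n y / T₀‖ ≤ C / ‖e₁‖`, `T₀ = Im (e₂ / e₁) ≠ 0`.
Choose `Y > 0` larger than `T`, all `|Im (κ i)|` and such that `|n| Y / |T₀| > C / ‖e₁‖`; `y₂ = Y`, `y₁ = - Y`.  On the line `Im = y₂` the real part of `σ V₁ / e₁`, `σ = ± 1` the sign of `n / T₀`, is positive,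
so `f₂ s = log (σ V₁ (s + y₂ I) / e₁) + log (σ e₁)` (principal logarithms) is continuous and `1`-periodic, `w = 0`; the same on `Im = y₁` with `- σ`.  `ST`.
-/

namespace TOR

open Metric Set Filter Topology DS

theorem C2_field {m : ℕ} {V : ℂ → ℂ} {k : Fin m → ℂ} {e₁ : ℂ}
    (F : Field (AddSubgroup.zmultiples e₁) V m k) (h1 : e₁ ≠ 0) :
    Field (AddSubgroup.zmultiples (1 : ℂ)) (fun x => V (e₁ * x)) m (fun i => k i / e₁) := by
  have hz : ∀ a : ℤ, a • e₁ = e₁ * (a • (1 : ℂ)) := by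
    intro a
    rw [zsmul_eq_mul, zsmul_eq_mul]
    ring
  refine ⟨F.cont.comp (by fun_prop), ?_, ?_, ?_, ?_⟩
  · rintro z ⟨a, rfl⟩ x
    change V (e₁ * (x + a • (1 : ℂ))) = V (e₁ * x)
    rw [mul_add, ← hz a]
    exact F.inv _ ⟨a, rfl⟩ _
  · intro x
    change V (e₁ * x) = 0 ↔ _
    rw [F.zero]
    constructor
    · rintro ⟨_, ⟨a, rfl⟩, i, hi⟩
      refine ⟨_, ⟨a, rfl⟩, i, ?_⟩
      rw [eq_div_iff h1, ← hi]
      change (x + a • (1 : ℂ)) * e₁ = e₁ * x + a • e₁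
      rw [hz a]
      ring
    · rintro ⟨_, ⟨a, rfl⟩, i, hi⟩
      refine ⟨_, ⟨a, rfl⟩, i, ?_⟩
      rw [eq_div_iff h1] at hi
      rw [← hi]
      change e₁ * x + a • e₁ = (x + a • (1 : ℂ)) * e₁
      rw [hz a]
      ring
  · rintro i j ⟨a, ha⟩
    refine F.ne i j ⟨a, ?_⟩
    change a • e₁ = k i - k j
    have ha' : a • (1 : ℂ) = k i / e₁ - k j / e₁ := ha
    rw [hz a, ha']
    field_simp
  · intro i
    obtain ⟨q, hq, hq0, hqe⟩ := F.loc i
    refine ⟨fun x => e₁ * q (e₁ * x), continuous_const.mul (hq.comp (by fun_prop)),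
      fun x => mul_ne_zero h1 (hq0 _), ?_⟩
    have h2 : Tendsto (fun x : ℂ => e₁ * x) (𝓝 (k i / e₁)) (𝓝 (k i)) := by
      have h3 : Continuous (fun x : ℂ => e₁ * x) := by fun_prop
      have h4 := h3.tendsto (k i / e₁)
      rwa [mul_div_cancel₀ _ h1] at h4
    filter_upwards [h2.eventually hqe] with x hx
    rw [hx]
    field_simp

theorem C2_log {W : ℂ → ℂ} (hW : Continuous W) {y : ℝ} {e τ : ℂ} (he : e ≠ 0) (hτ : τ * τ = 1)
    (hper : ∀ x, W (x + 1) = W x)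
    (hre : ∀ s : ℝ, 0 < (τ * W (s + y * Complex.I) / e).re) :
    ∃ f : ℝ → ℂ, Continuous f ∧ (∀ s : ℝ, W (s + y * Complex.I) = Complex.exp (f s)) ∧
      ∀ s, f (s + 1) = f s + 0 := by
  have hτ0 : τ ≠ 0 := left_ne_zero_of_mul_eq_one hτ
  have hsl : ∀ s : ℝ, τ * W (s + y * Complex.I) / e ∈ Complex.slitPlane := fun s =>
    Or.inl (hre s)
  refine ⟨fun s : ℝ => Complex.log (τ * W (s + y * Complex.I) / e) + Complex.log (τ * e), ?_, ?_,
    ?_⟩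
  · refine Continuous.add (Continuous.clog ?_ hsl) continuous_const
    exact (continuous_const.mul (hW.comp (by fun_prop))).div_const _
  · intro s
    rw [Complex.exp_add, Complex.exp_log (Complex.slitPlane_ne_zero (hsl s)),
      Complex.exp_log (mul_ne_zero hτ0 he)]
    field_simp
    linear_combination (-W (s + y * Complex.I)) * hτ
  · intro s
    have : ((s + 1 : ℝ) : ℂ) + y * Complex.I = s + y * Complex.I + 1 := by
      push_cast
      ring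
    simp only [this, hper, add_zero]

theorem C2_re {z : ℂ} {τ : ℂ} (hτ : τ * τ = 1) {r B : ℝ} {σ : ℝ} (hσ : τ = σ)
    (hz : ‖z - (r : ℂ)‖ ≤ B) (h : B < σ * r) : 0 < (τ * z).re := by
  have h1 : ‖τ‖ = 1 := by
    have := congrArg norm hτ
    rw [norm_mul, norm_one] at this
    nlinarith [norm_nonneg τ]
  have h2 : ‖τ * z - (σ * r : ℝ)‖ ≤ B := by
    have : τ * z - ((σ * r : ℝ) : ℂ) = τ * (z - r) := by
      rw [hσ]
      push_cast
      ring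
    rw [this, norm_mul, h1, one_mul]
    exact hz
  have h3 := Complex.abs_re_le_norm (τ * z - (σ * r : ℝ))
  rw [Complex.sub_re, Complex.ofReal_re] at h3
  have h4 := (abs_le.1 (h3.trans h2)).1
  linarith

theorem c2 {m : ℕ} {V : ℂ → ℂ} {k : Fin m → ℂ} {e₁ e₂ : ℂ} (F : Field (AddSubgroup.zmultiples e₁) V m k)
    (h1 : e₁ ≠ 0) (him : (e₂ / e₁).im ≠ 0) {n : ℤ} (hn : n ≠ 0) {C T : ℝ}
    (hC : ∀ x : ℂ, T ≤ |(x / e₁).im| → ‖V x - (((n : ℝ) * ((x / e₁).im / (e₂ / e₁).im) : ℝ) : ℂ) * e₁‖ ≤ C) :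
    m = 0 := by
  classical
  set T₀ : ℝ := (e₂ / e₁).im with hT₀
  set W : ℂ → ℂ := fun x => V (e₁ * x) with hW
  have F₁ : Field (AddSubgroup.zmultiples (1 : ℂ)) W m (fun i => k i / e₁) := C2_field F h1
  have hper : ∀ x, W (x + 1) = W x := fun x =>
    F₁.inv 1 (AddSubgroup.mem_zmultiples 1) x
  set a : ℝ := n / T₀ with ha
  have ha0 : a ≠ 0 := div_ne_zero (Int.cast_ne_zero.2 hn) him
  have hest : ∀ s y : ℝ, T ≤ |y| →
      ‖W (s + y * Complex.I) / e₁ - ((a * y : ℝ) : ℂ)‖ ≤ C / ‖e₁‖ := by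
    intro s y hy
    have h2 : ((s : ℂ) + y * Complex.I).im = y := by simp
    have h3 : (e₁ * ((s : ℂ) + y * Complex.I)) / e₁ = s + y * Complex.I := by
      field_simp
    have h4 := hC (e₁ * (s + y * Complex.I)) (by rw [h3, h2]; exact hy)
    rw [h3, h2] at h4
    have h5 : W (s + y * Complex.I) / e₁ - ((a * y : ℝ) : ℂ) =
        (V (e₁ * (s + y * Complex.I)) - (((n : ℝ) * (y / T₀) : ℝ) : ℂ) * e₁) / e₁ := by
      rw [sub_div, mul_div_assoc _ e₁ e₁, div_self h1, mul_one]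
      congr 2
      rw [ha]
      ring
    rw [h5, norm_div]
    exact div_le_div_of_nonneg_right h4 (norm_nonneg _)
  obtain ⟨Y, hY⟩ : ∃ Y : ℝ, 0 < Y ∧ T ≤ Y ∧ (∀ i, |(k i / e₁).im| < Y) ∧ C / ‖e₁‖ < |a| * Y := by
    have hb : ∃ M : ℝ, ∀ i, |(k i / e₁).im| < M := by
      obtain ⟨M, hM⟩ := (Set.finite_range fun i => |(k i / e₁).im|).bddAbove
      exact ⟨M + 1, fun i => (hM ⟨i, rfl⟩).trans_lt (lt_add_one M)⟩
    obtain ⟨M, hM⟩ := hb
    refine ⟨max (max 1 T) (max M (C / ‖e₁‖ / |a| + 1)), ?_, ?_, ?_, ?_⟩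
    · exact zero_lt_one.trans_le ((le_max_left _ _).trans (le_max_left _ _))
    · exact (le_max_right _ _).trans (le_max_left _ _)
    · exact fun i => (hM i).trans_le ((le_max_left _ _).trans (le_max_right _ _))
    · have h2 : C / ‖e₁‖ / |a| < max (max 1 T) (max M (C / ‖e₁‖ / |a| + 1)) :=
        (lt_add_one _).trans_le ((le_max_right _ _).trans (le_max_right _ _))
      rw [div_lt_iff₀ (abs_pos.2 ha0)] at h2
      linarith
  obtain ⟨hY0, hYT, hYk, hYC⟩ := hY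
  obtain ⟨σ, hσ1, hσ2⟩ : ∃ σ : ℝ, σ * σ = 1 ∧ σ * a = |a| := by
    rcases lt_or_gt_of_ne ha0 with h | h
    · exact ⟨-1, by norm_num, by rw [abs_of_neg h]; ring⟩
    · exact ⟨1, by norm_num, by rw [abs_of_pos h]; ring⟩
  have hσc : (σ : ℂ) * σ = 1 := by
    rw [← Complex.ofReal_mul, hσ1, Complex.ofReal_one]
  obtain ⟨f₂, c₂, g₂, p₂⟩ := C2_log (y := Y) F₁.cont h1 hσc hper (by
    intro s
    rw [mul_div_assoc]
    refine C2_re (σ := σ) hσc rfl (hest s Y (by rw [abs_of_pos hY0]; exact hYT)) ?_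
    rw [← mul_assoc, hσ2]
    exact hYC)
  obtain ⟨f₁, c₁, g₁, p₁⟩ := C2_log (y := -Y) (τ := -(σ : ℂ)) F₁.cont h1 (by
      rw [neg_mul_neg]; exact hσc) hper (by
    intro s
    rw [mul_div_assoc]
    refine C2_re (σ := -σ) (by rw [neg_mul_neg]; exact hσc) (by push_cast; ring)
      (hest s (-Y) (by rw [abs_neg, abs_of_pos hY0]; exact hYT)) ?_
    have : -σ * (a * -Y) = σ * a * Y := by ring
    rw [this, hσ2]
    exact hYC)
  exact st F₁ (y₁ := -Y) (y₂ := Y) (fun i => (abs_lt.1 (hYk i)).1) (fun i => (abs_lt.1 (hYk i)).2)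
    c₁ c₂ g₁ g₂ p₁ p₂

end TOR
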