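import Pool.Agent.H57.TOR.Defs

/-!
LG (continuous logarithms).  `lg_const`: `exp (f x - g x) = 1`, so `f - g` has values in the discrete set `2 π I ℤ` and is continuous on a preconnected space: constant
(compare `IA_const` in H36/DS/IA: locally constant, as two different values have distance at least `1`).
`lg_per`: `lg_const` for `s ↦ f (s + 1)` and `f`.  `lg_per2`: the same on `ℂ`.  `lg_exists`: `DS.allLogs_univ`.
-/

namespace TOR

open Metric Set Filter Topology DS

theorem lg_const {T : Type*} [TopologicalSpace T] [PreconnectedSpace T] {f g : T → ℂ} (hf : Continuous f)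
    (hg : Continuous g) (h : ∀ x, Complex.exp (f x) = Complex.exp (g x)) (x y : T) :
    f x - g x = f y - g y := by
  have hloc : IsLocallyConstant fun x => f x - g x := by
    rw [IsLocallyConstant.iff_eventually_eq]
    intro x
    have h1 : ∀ᶠ y in 𝓝 x, dist (f y - g y) (f x - g x) < 1 :=
      (hf.sub hg).continuousAt.eventually (ball_mem_nhds _ one_pos)
    filter_upwards [h1] with y hy
    obtain ⟨a, ha⟩ := Complex.exp_eq_exp_iff_exists_int.1 (h y)
    obtain ⟨b, hb⟩ := Complex.exp_eq_exp_iff_exists_int.1 (h x)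
    have hab : (f y - g y) - (f x - g x) = ((a - b : ℤ) : ℂ) * (2 * Real.pi * Complex.I) := by
      rw [ha, hb]; push_cast; ring
    rw [dist_eq_norm, hab, norm_mul] at hy
    have hn : ‖(2 * Real.pi * Complex.I : ℂ)‖ = 2 * Real.pi := by
      rw [norm_mul, norm_mul, Complex.norm_I, mul_one, Complex.norm_real, Complex.norm_ofNat,
        Real.norm_of_nonneg Real.pi_pos.le]
    rw [hn, Complex.norm_intCast] at hy
    have hpi : (1 : ℝ) < 2 * Real.pi := by linarith [Real.pi_gt_three]
    have h0 : a - b = 0 := by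
      by_contra hne
      have h3 : (1 : ℝ) ≤ |((a - b : ℤ) : ℝ)| := by
        rw [← Int.cast_abs]
        exact_mod_cast Int.one_le_abs hne
      nlinarith
    rw [h0, Int.cast_zero, zero_mul] at hab
    exact sub_eq_zero.1 hab
  exact hloc.apply_eq_of_preconnectedSpace x y

theorem lg_per {f : ℝ → ℂ} (hf : Continuous f) (h : ∀ s, Complex.exp (f (s + 1)) = Complex.exp (f s)) :
    ∃ w : ℂ, ∀ s, f (s + 1) = f s + w := by
  refine ⟨f (0 + 1) - f 0, fun s => ?_⟩
  have h1 := lg_const (f := fun s => f (s + 1)) (g := f) (by fun_prop) hf h s 0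
  linear_combination h1

theorem lg_per2 {f : ℂ → ℂ} (hf : Continuous f) (h : ∀ s, Complex.exp (f (s + 1)) = Complex.exp (f s)) :
    ∃ w : ℂ, ∀ s, f (s + 1) = f s + w := by
  refine ⟨f (0 + 1) - f 0, fun s => ?_⟩
  have h1 := lg_const (f := fun s => f (s + 1)) (g := f) (by fun_prop) hf h s 0
  linear_combination h1

theorem lg_exists {f : ℂ → ℂ} (hf : Continuous f) (h0 : ∀ x, f x ≠ 0) :
    ∃ L : ℂ → ℂ, Continuous L ∧ ∀ x, f x = Complex.exp (L x) := by
  obtain ⟨L, hL, hE⟩ := allLogs_univ f hf.continuousOn fun z _ => h0 z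
  exact ⟨L, continuousOn_univ.1 hL, fun x => hE x (mem_univ x)⟩

end TOR
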