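import Pool.Agent.H57.TOR.QU
import Pool.Agent.H57.TOR.LG

/-!
C3 (the case `Z = 0`, `V x = a x + b conj x + O(1)`, `‖a‖ < ‖b‖`).  Let `W x = ∏ i, (x - k i)` (the `k i` are distinct: `Field.ne`); by `qu` `V = Q W`, `Q = exp h` (`lg_exists`).  Let `ρ` be larger than `R`, all `‖k i‖`, `1`, and such that
`C / ρ < ‖b‖ - ‖a‖`.  On the circle `x = ρ exp (I s)`, `s` real: `x - k i = x * (1 - k i / x) = exp (log ρ + I s + log (1 - k i / x))`, so
`g s = h x + ∑ i, (log ρ + I s + log (1 - k i / x))` is a continuous logarithm of `V x` with `g (s + 2 π) = g s + m * 2 π I`.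
On the other hand `V x = b conj x * (1 + u)`, `u = (a x + (V x - a x - b conj x)) / (b conj x)`, `‖u‖ ≤ (‖a‖ ρ + C) / (‖b‖ ρ) < 1`, so `V x = exp (log b + log ρ - I s + log (1 + u))`, a continuous logarithm `g'` with
`g' (s + 2 π) = g' s - 2 π I`.  `g - g'` is constant (`lg_const`), so `m * 2 π I = - 2 π I`: contradiction (`m` is a natural number).
-/

namespace TOR

open Metric Set Filter Topology DS

theorem C3_log_add {w : ℂ} (hw : ‖w‖ < 1) : 1 + w ∈ Complex.slitPlane :=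
  Complex.mem_slitPlane_of_norm_lt_one hw

/-- the points of the circle -/
noncomputable def C3_x (ρ : ℝ) (s : ℝ) : ℂ := Complex.exp ((Real.log ρ : ℂ) + Complex.I * s)

theorem C3_x_eq {ρ : ℝ} (hρ : 0 < ρ) (s : ℝ) : C3_x ρ s = ρ * Complex.exp (Complex.I * s) := by
  unfold C3_x
  rw [Complex.exp_add, ← Complex.ofReal_exp, Real.exp_log hρ]

theorem C3_x_norm {ρ : ℝ} (hρ : 0 < ρ) (s : ℝ) : ‖C3_x ρ s‖ = ρ := by
  rw [C3_x_eq hρ, norm_mul, mul_comm Complex.I, Complex.norm_exp_ofReal_mul_I, mul_one,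
    Complex.norm_real, Real.norm_of_nonneg hρ.le]

theorem C3_x_per {ρ : ℝ} (s : ℝ) : C3_x ρ (s + 2 * Real.pi) = C3_x ρ s := by
  unfold C3_x
  have h := Complex.exp_periodic ((Real.log ρ : ℂ) + Complex.I * s)
  rw [← h]
  congr 1
  push_cast
  ring

theorem C3_x_conj {ρ : ℝ} (s : ℝ) :
    (starRingEnd ℂ) (C3_x ρ s) = Complex.exp ((Real.log ρ : ℂ) - Complex.I * s) := by
  unfold C3_x
  rw [← Complex.exp_conj, map_add, map_mul, Complex.conj_ofReal, Complex.conj_ofReal,
    Complex.conj_I]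
  congr 1
  ring

theorem C3_x_cont (ρ : ℝ) : Continuous (C3_x ρ) := by
  unfold C3_x
  fun_prop

theorem c3 {m : ℕ} {V : ℂ → ℂ} {k : Fin m → ℂ} (F : Field ⊥ V m k) {a b : ℂ} (hab : ‖a‖ < ‖b‖)
    {C R : ℝ} (hC : ∀ x : ℂ, R ≤ ‖x‖ → ‖V x - (a * x + b * (starRingEnd ℂ) x)‖ ≤ C) : False := by
  classical
  set W : ℂ → ℂ := fun x => ∏ i, (x - k i) with hW
  have hWd : Differentiable ℂ W := by
    intro x
    exact DifferentiableAt.fun_finset_prod fun i _ => (differentiableAt_id.sub_const (k i))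
  have hV0 : ∀ x, V x = 0 ↔ ∃ i, x = k i := by
    intro x
    rw [F.zero]
    constructor
    · rintro ⟨z, hz, i, h⟩
      rw [AddSubgroup.mem_bot] at hz
      exact ⟨i, by rw [← h, hz, add_zero]⟩
    · rintro ⟨i, h⟩
      exact ⟨0, AddSubgroup.zero_mem _, i, by rw [add_zero, h]⟩
  have hW0 : ∀ x, W x = 0 ↔ ∃ i, x = k i := by
    intro x
    simp only [hW, Finset.prod_eq_zero_iff, Finset.mem_univ, true_and, sub_eq_zero]
  have hk : ∀ i j, k i = k j → i = j := fun i j h => F.ne i j (by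
    rw [h, sub_self]
    exact AddSubgroup.zero_mem _)
  have hWder : ∀ i, deriv W (k i) ≠ 0 := by
    intro i
    have h1 : W = fun x => (x - k i) * ∏ j ∈ Finset.univ.erase i, (x - k j) := by
      funext x
      simp only [hW]
      rw [Finset.mul_prod_erase Finset.univ (fun j => x - k j) (Finset.mem_univ i)]
    have hPd : DifferentiableAt ℂ (fun x => ∏ j ∈ Finset.univ.erase i, (x - k j)) (k i) :=
      DifferentiableAt.fun_finset_prod fun j _ => (differentiableAt_id.sub_const (k j))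
    have h2 : HasDerivAt (fun x => x - k i) 1 (k i) := (hasDerivAt_id (k i)).sub_const (k i)
    have h3 := h2.mul hPd.hasDerivAt
    rw [h1]
    have h4 : deriv (fun x => (x - k i) * ∏ j ∈ Finset.univ.erase i, (x - k j)) (k i) =
        ∏ j ∈ Finset.univ.erase i, (k i - k j) := by
      have h5 := h3.deriv
      simp only [sub_self, zero_mul, one_mul, add_zero] at h5
      exact h5
    rw [h4, Finset.prod_ne_zero_iff]
    intro j hj h
    exact (Finset.ne_of_mem_erase hj) (hk _ _ (sub_eq_zero.1 h)).symm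
  obtain ⟨Q, hQc, hQ0, hQ⟩ := qu F.cont hWd (by
    intro x
    by_cases hx : ∃ i, x = k i
    · right
      obtain ⟨i, rfl⟩ := hx
      obtain ⟨q, hq, hq0, hqe⟩ := F.loc i
      exact ⟨(hW0 _).2 ⟨i, rfl⟩, hWder i, q, hq.continuousAt, hq0 _, hqe⟩
    · left
      exact ⟨fun h => hx ((hV0 x).1 h), fun h => hx ((hW0 x).1 h)⟩)
  obtain ⟨L, hL, hLQ⟩ := lg_exists hQc hQ0
  -- the radius
  have hb0 : 0 < ‖b‖ := lt_of_le_of_lt (norm_nonneg a) hab
  have hb : b ≠ 0 := norm_pos_iff.1 hb0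
  have hba : 0 < ‖b‖ - ‖a‖ := by linarith
  obtain ⟨ρ, hρ1, hρR, hρC, hρk⟩ : ∃ ρ : ℝ, 1 ≤ ρ ∧ R ≤ ρ ∧ ‖a‖ * ρ + C < ‖b‖ * ρ ∧
      ∀ i, ‖k i‖ < ρ := by
    refine ⟨1 + |R| + |C| / (‖b‖ - ‖a‖) + ∑ i, ‖k i‖, ?_, ?_, ?_, ?_⟩
    · have h1 : 0 ≤ ∑ i, ‖k i‖ := Finset.sum_nonneg fun i _ => norm_nonneg _
      have h2 : 0 ≤ |C| / (‖b‖ - ‖a‖) := by positivity
      linarith [abs_nonneg R]
    · have h1 : 0 ≤ ∑ i, ‖k i‖ := Finset.sum_nonneg fun i _ => norm_nonneg _
      have h2 : 0 ≤ |C| / (‖b‖ - ‖a‖) := by positivity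
      linarith [le_abs_self R]
    · set ρ : ℝ := 1 + |R| + |C| / (‖b‖ - ‖a‖) + ∑ i, ‖k i‖ with hρ
      have h1 : 0 ≤ ∑ i, ‖k i‖ := Finset.sum_nonneg fun i _ => norm_nonneg _
      have h2 : |C| / (‖b‖ - ‖a‖) < ρ := by
        rw [hρ]
        linarith [abs_nonneg R]
      rw [div_lt_iff₀ hba] at h2
      have := le_abs_self C
      linarith
    · intro i
      have h1 : ‖k i‖ ≤ ∑ i, ‖k i‖ :=
        Finset.single_le_sum (f := fun i => ‖k i‖) (fun i _ => norm_nonneg _) (Finset.mem_univ i)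
      have h2 : 0 ≤ |C| / (‖b‖ - ‖a‖) := by positivity
      linarith [abs_nonneg R]
  have hρ0 : 0 < ρ := by linarith
  set x : ℝ → ℂ := C3_x ρ with hx
  have hxn : ∀ s, ‖x s‖ = ρ := fun s => C3_x_norm hρ0 s
  have hx0 : ∀ s, x s ≠ 0 := fun s => Complex.exp_ne_zero _
  have hxc : Continuous x := C3_x_cont ρ
  have hxper : ∀ s, x (s + 2 * Real.pi) = x s := fun s => C3_x_per s
  have hki : ∀ i s, ‖-(k i / x s)‖ < 1 := by
    intro i s
    rw [norm_neg, norm_div, hxn, div_lt_one hρ0]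
    exact hρk i
  -- first logarithm
  set g : ℝ → ℂ := fun s => L (x s) + ∑ i, ((Real.log ρ : ℂ) + Complex.I * s +
    Complex.log (1 + -(k i / x s))) with hg
  have hgc : Continuous g := by
    refine (hL.comp hxc).add (continuous_finsetSum _ fun i _ => ?_)
    refine Continuous.add (by fun_prop) ?_
    refine Continuous.clog ?_ fun s => C3_log_add (hki i s)
    exact continuous_const.add ((continuous_const.div hxc hx0).neg)
  have hgV : ∀ s, Complex.exp (g s) = V (x s) := by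
    intro s
    simp only [hg]
    rw [Complex.exp_add, ← hLQ, Complex.exp_sum, hQ (x s)]
    congr 1
    simp only [hW]
    refine Finset.prod_congr rfl fun i _ => ?_
    rw [Complex.exp_add, Complex.exp_log (Complex.slitPlane_ne_zero (C3_log_add (hki i s)))]
    have h1 : Complex.exp ((Real.log ρ : ℂ) + Complex.I * s) = x s := rfl
    rw [h1, mul_add, mul_one, mul_neg, mul_div_cancel₀ _ (hx0 s)]
    ring
  have hgper : g (0 + 2 * Real.pi) = g 0 + m * (2 * Real.pi * Complex.I) := by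
    simp only [hg]
    rw [hxper 0]
    have h1 : ∑ i : Fin m, ((Real.log ρ : ℂ) + Complex.I * ((0 + 2 * Real.pi : ℝ) : ℂ) +
        Complex.log (1 + -(k i / x 0))) = ∑ i : Fin m, (((Real.log ρ : ℂ) + Complex.I * ((0 : ℝ) : ℂ) +
        Complex.log (1 + -(k i / x 0))) + 2 * Real.pi * Complex.I) := by
      refine Finset.sum_congr rfl fun i _ => ?_
      push_cast
      ring
    rw [h1, Finset.sum_add_distrib, Finset.sum_const, Finset.card_univ, Fintype.card_fin,
      nsmul_eq_mul]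
    ring
  -- second logarithm
  have hcx : ∀ s, (starRingEnd ℂ) (x s) = Complex.exp ((Real.log ρ : ℂ) - Complex.I * s) :=
    fun s => C3_x_conj s
  have hbx : ∀ s, b * (starRingEnd ℂ) (x s) ≠ 0 := by
    intro s
    rw [hcx]
    exact mul_ne_zero hb (Complex.exp_ne_zero _)
  have hbxn : ∀ s, ‖b * (starRingEnd ℂ) (x s)‖ = ‖b‖ * ρ := by
    intro s
    rw [norm_mul, RCLike.norm_conj, hxn]
  have hu : ∀ s, ‖(V (x s) - b * (starRingEnd ℂ) (x s)) / (b * (starRingEnd ℂ) (x s))‖ < 1 := by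
    intro s
    rw [norm_div, hbxn, div_lt_one (by positivity)]
    have h1 := hC (x s) (by rw [hxn]; exact hρR)
    have h2 : V (x s) - b * (starRingEnd ℂ) (x s) =
        (V (x s) - (a * x s + b * (starRingEnd ℂ) (x s))) + a * x s := by ring
    rw [h2]
    refine (norm_add_le _ _).trans_lt ?_
    rw [norm_mul, hxn]
    linarith
  set g' : ℝ → ℂ := fun s => Complex.log b + ((Real.log ρ : ℂ) - Complex.I * s) +
    Complex.log (1 + (V (x s) - b * (starRingEnd ℂ) (x s)) / (b * (starRingEnd ℂ) (x s))) with hg'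
  have hcc : Continuous fun s => b * (starRingEnd ℂ) (x s) :=
    continuous_const.mul (Complex.continuous_conj.comp hxc)
  have hgc' : Continuous g' := by
    refine Continuous.add (by fun_prop) ?_
    refine Continuous.clog ?_ fun s => C3_log_add (hu s)
    exact continuous_const.add (((F.cont.comp hxc).sub hcc).div hcc hbx)
  have hgV' : ∀ s, Complex.exp (g' s) = V (x s) := by
    intro s
    simp only [hg']
    rw [Complex.exp_add, Complex.exp_add, Complex.exp_log hb, ← hcx,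
      Complex.exp_log (Complex.slitPlane_ne_zero (C3_log_add (hu s))), mul_add, mul_one,
      mul_div_cancel₀ _ (hbx s)]
    ring
  have hgper' : g' (0 + 2 * Real.pi) = g' 0 - 2 * Real.pi * Complex.I := by
    simp only [hg']
    rw [hxper 0]
    push_cast
    ring
  have hfin := lg_const hgc hgc' (fun s => by rw [hgV, hgV']) (0 + 2 * Real.pi) 0
  rw [hgper, hgper'] at hfin
  have h1 : ((m : ℂ) + 1) * (2 * Real.pi * Complex.I) = 0 := by linear_combination hfin
  have h2 : (2 * Real.pi * Complex.I : ℂ) ≠ 0 := Complex.two_pi_I_ne_zero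
  have h3 : (m : ℂ) + 1 = 0 := (mul_eq_zero.1 h1).resolve_right h2
  exact Nat.cast_add_one_ne_zero m h3


end TOR
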