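import Pool.Agent.H57.TOR.Defs

/-!
LA (the lattice).  As `X` is the plane (`Deck.hX`; the unit disc is not the plane) `A g x = x + l g`.  `mul`: `Deck.mul` at `0`.  `inj`: `Deck.ext` at `0`.  `fin`: `Deck.proper` for `closedBall 0 R` (the point `x = 0`; if `R < 0` the set is empty).
`coc`: `Deck.coc`, a compact set is bounded.
-/

namespace TOR

open Metric Set Filter Topology DS CV

theorem la_lat {S : Type} [MetricSpace S] [CompactSpace S] {X : Set ℂ} {Γ : Type} [Group Γ]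
    {A : Γ → ℂ → ℂ} {p : ℂ → S} (D : Deck X A p) (hX : X = univ) :
    ∃ l : Γ → ℂ, Lat l ∧ ∀ g x, A g x = x + l g := by
  have h0 : ∀ x : ℂ, x ∈ X := fun x => by rw [hX]; exact mem_univ x
  have h1 : ∀ g, ∃ l : ℂ, ∀ x, A g x = x + l := by
    rcases D.hX with ⟨-, h⟩ | ⟨h, -⟩
    · exact h
    · exfalso
      have h2 := h0 2
      rw [h, mem_ball_zero_iff] at h2
      norm_num at h2
  choose l hl using h1
  refine ⟨l, ⟨?_, ?_, ?_, ?_⟩, hl⟩
  · intro g h
    have h2 := D.mul g h 0 (h0 0)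
    rw [hl, hl, hl] at h2
    linear_combination h2
  · intro g h hgh
    have h2 : A h 0 = A g 0 := by rw [hl, hl, hgh]
    have h3 : A (g⁻¹ * h) 0 = 0 := by
      rw [D.mul _ _ 0 (h0 0), h2, D.inv_left g (h0 0)]
    by_contra hne
    have h4 : g⁻¹ * h ≠ 1 := fun h5 => hne (inv_mul_eq_one.1 h5)
    exact D.free _ h4 0 (h0 0) h3
  · intro R
    refine (D.proper (closedBall 0 (max R 0)) (fun x _ => h0 x)
      (isCompact_closedBall _ _)).subset ?_
    intro g hg
    refine ⟨0, mem_closedBall_self (le_max_right _ _), ?_⟩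
    rw [hl, zero_add, mem_closedBall_zero_iff]
    exact (show ‖l g‖ ≤ R from hg).trans (le_max_left _ _)
  · obtain ⟨C, -, hC, h2⟩ := D.coc
    obtain ⟨R, hR⟩ := hC.isBounded.exists_norm_le
    refine ⟨R, fun x => ?_⟩
    obtain ⟨g, hg⟩ := h2 x (h0 x)
    rw [hl] at hg
    exact ⟨g, hR _ hg⟩

end TOR
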