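import Pool.Agent.H57.TOR.Defs

/-!
LB (a basis of the lattice).  Elementary proof.  `l 1 = 0`, `l g⁻¹ = - l g`, `l (g ^ n) = n l g` (`n : ℤ`).  By `coc` there is `g` with `l g ≠ 0` (otherwise every `x` would have `‖x‖ ≤ R`).  Let `e₁` be a nontrivial element with the smallest `‖l e₁‖ > 0` (`fin`).
By `coc` for `x = y I l e₁`, `y` real and large, there is `g` with `Im (l g / l e₁) ≠ 0`.  Multiplying by a power of `e₁` we may assume `|Re (l g / l e₁)| ≤ 1`; so by `fin` there is an element `e₂` with `|Re (l e₂ / l e₁)| ≤ 1` and the smallest positive `|Im (l e₂ / l e₁)|`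
among all elements with `|Re| ≤ 1`, hence among all elements with `Im ≠ 0`.  Let `g` be arbitrary, `b = round` or `⌊Im (l g / l e₁) / Im (l e₂ / l e₁)⌋`, `g' = g * e₂ ^ (-b)`: `|Im (l g' / l e₁)| < |Im (l e₂ / l e₁)|`, so it is `0` by minimality.  `t = l g' / l e₁` is real, `a = ⌊t⌋`, `g'' = g' * e₁ ^ (-a)`:
`‖l g''‖ = (t - a) ‖l e₁‖ < ‖l e₁‖`, so `l g'' = 0` by minimality of `e₁`, and `l g = a l e₁ + b l e₂`.
(Alternative: `IsZLattice`, `ZLattice.rank`, `Basis.ofZLatticeBasis` of Mathlib.)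
-/

namespace TOR

open Metric Set Filter Topology DS

theorem LB_zpow {Γ : Type} [Group Γ] {l : Γ → ℂ} (L : Lat l) (g : Γ) (n : ℤ) :
    l (g ^ n) = n * l g := by
  let φ : Γ →* Multiplicative ℂ := MonoidHom.mk' (fun g => Multiplicative.ofAdd (l g)) (by
    intro a b
    rw [L.mul, ofAdd_add])
  have h : φ (g ^ n) = φ g ^ n := map_zpow φ g n
  have h2 : Multiplicative.ofAdd (l (g ^ n)) = Multiplicative.ofAdd (l g) ^ n := h
  rw [← ofAdd_zsmul] at h2
  have h3 := Multiplicative.ofAdd.injective h2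
  rw [h3, zsmul_eq_mul]

theorem LB_mulz {Γ : Type} [Group Γ] {l : Γ → ℂ} (L : Lat l) (g h : Γ) (n : ℤ) :
    l (g * h ^ (-n)) = l g - n * l h := by
  rw [L.mul, LB_zpow L]
  push_cast
  ring

theorem LB_min {Γ : Type} (S : Set Γ) (f : Γ → ℝ) (g : Γ) (hg : g ∈ S)
    (hf : {a | a ∈ S ∧ f a ≤ f g}.Finite) : ∃ a ∈ S, ∀ b ∈ S, f a ≤ f b := by
  obtain ⟨a, ha, hm⟩ := Set.exists_min_image _ f hf ⟨g, hg, le_rfl⟩
  refine ⟨a, ha.1, fun b hb => ?_⟩
  by_cases h : f b ≤ f g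
  · exact hm b ⟨hb, h⟩
  · exact ha.2.trans (le_of_lt (not_le.1 h))

theorem la_bas {Γ : Type} [Group Γ] {l : Γ → ℂ} (L : Lat l) : ∃ e₁ e₂, Bas l e₁ e₂ := by
  obtain ⟨R, hR⟩ := L.coc
  -- a nontrivial element
  obtain ⟨g0, hg0⟩ : ∃ g, l g ≠ 0 := by
    by_contra hcon
    push Not at hcon
    obtain ⟨g, hg⟩ := hR ((|R| + 1 : ℝ) : ℂ)
    rw [hcon g, add_zero, Complex.norm_real, Real.norm_eq_abs] at hg
    have h1 := le_abs_self (|R| + 1)
    have h2 := le_abs_self R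
    linarith
  obtain ⟨e₁, he1, hmin1⟩ := LB_min {g | l g ≠ 0} (fun g => ‖l g‖) g0 hg0
    ((L.fin ‖l g0‖).subset (fun a ha => ha.2))
  simp only [Set.mem_setOf_eq] at he1 hmin1
  have hpos : 0 < ‖l e₁‖ := norm_pos_iff.2 he1
  -- an element outside of the line
  obtain ⟨g1, hg1⟩ : ∃ g, (l g / l e₁).im ≠ 0 := by
    by_contra hcon
    push Not at hcon
    obtain ⟨g, hg⟩ := hR (((|R| / ‖l e₁‖ + 1 : ℝ) : ℂ) * Complex.I * l e₁)
    have h1 : (((|R| / ‖l e₁‖ + 1 : ℝ) : ℂ) * Complex.I * l e₁ + l g) / l e₁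
        = ((|R| / ‖l e₁‖ + 1 : ℝ) : ℂ) * Complex.I + l g / l e₁ := by
      field_simp
    have h2 : ((((|R| / ‖l e₁‖ + 1 : ℝ) : ℂ) * Complex.I * l e₁ + l g) / l e₁).im
        = |R| / ‖l e₁‖ + 1 := by
      rw [h1, Complex.add_im, hcon g]
      simp
    have h3 := Complex.abs_im_le_norm ((((|R| / ‖l e₁‖ + 1 : ℝ) : ℂ) * Complex.I * l e₁ + l g) / l e₁)
    rw [h2, norm_div] at h3
    have h4 := le_abs_self (|R| / ‖l e₁‖ + 1)
    have h5 : ‖((|R| / ‖l e₁‖ + 1 : ℝ) : ℂ) * Complex.I * l e₁ + l g‖ / ‖l e₁‖ ≤ |R| / ‖l e₁‖ :=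
      div_le_div_of_nonneg_right (hg.trans (le_abs_self R)) hpos.le
    linarith
  have hred : ∀ g, ∃ g', |(l g' / l e₁).re| ≤ 1 ∧ (l g' / l e₁).im = (l g / l e₁).im := by
    intro g
    refine ⟨g * e₁ ^ (-⌊(l g / l e₁).re⌋), ?_, ?_⟩
    · rw [LB_mulz L, sub_div, mul_div_assoc, div_self he1, mul_one, Complex.sub_re, Complex.intCast_re]
      rw [abs_le]
      have h1 := Int.floor_le (l g / l e₁).re
      have h2 := Int.lt_floor_add_one (l g / l e₁).re
      constructor <;> linarith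
    · rw [LB_mulz L, sub_div, mul_div_assoc, div_self he1, mul_one, Complex.sub_im, Complex.intCast_im, sub_zero]
  obtain ⟨g2, hg2, hg2'⟩ := hred g1
  obtain ⟨e₂, he2, hmin2⟩ := LB_min {g | |(l g / l e₁).re| ≤ 1 ∧ (l g / l e₁).im ≠ 0}
    (fun g => |(l g / l e₁).im|) g2 ⟨hg2, by rw [hg2']; exact hg1⟩
    ((L.fin ((1 + |(l g2 / l e₁).im|) * ‖l e₁‖)).subset (fun a ha => by
      have h1 : |(l a / l e₁).re| ≤ 1 := ha.1.1
      have h2 : |(l a / l e₁).im| ≤ |(l g2 / l e₁).im| := ha.2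
      have h3 := Complex.norm_le_abs_re_add_abs_im (l a / l e₁)
      rw [norm_div, div_le_iff₀ hpos] at h3
      refine h3.trans (mul_le_mul_of_nonneg_right (by linarith) hpos.le)))
  simp only [Set.mem_setOf_eq] at he2 hmin2
  have hmin3 : ∀ g, (l g / l e₁).im ≠ 0 → |(l e₂ / l e₁).im| ≤ |(l g / l e₁).im| := by
    intro g hg
    obtain ⟨g', h1, h2⟩ := hred g
    rw [← h2]
    exact hmin2 g' ⟨h1, by rw [h2]; exact hg⟩
  refine ⟨e₁, e₂, he1, he2.2, fun g => ?_⟩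
  set τ : ℂ := l e₂ / l e₁ with hτ
  have hτ0 : τ.im ≠ 0 := he2.2
  have hl2 : l e₂ = τ * l e₁ := by rw [hτ]; field_simp
  set b : ℤ := ⌊(l g / l e₁).im / τ.im⌋ with hb
  set g' : Γ := g * e₂ ^ (-b) with hg'
  have hlg' : l g' = l g - b * l e₂ := LB_mulz L g e₂ b
  have hq : l g' / l e₁ = l g / l e₁ - b * τ := by
    rw [hlg', hl2]
    field_simp
  have him : (l g' / l e₁).im = 0 := by
    by_contra hne
    have h1 := hmin3 g' hne
    have h2 : (l g' / l e₁).im = ((l g / l e₁).im / τ.im - b) * τ.im := by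
      rw [hq, Complex.sub_im]
      have : ((b : ℂ) * τ).im = b * τ.im := by simp
      rw [this]
      field_simp
    rw [h2, abs_mul] at h1
    have h3 := Int.floor_le ((l g / l e₁).im / τ.im)
    have h4 := Int.lt_floor_add_one ((l g / l e₁).im / τ.im)
    have h5 : |(l g / l e₁).im / τ.im - b| < 1 := by
      rw [abs_of_nonneg (by rw [hb]; linarith)]
      rw [hb]; linarith
    have h6 : 0 < |τ.im| := abs_pos.2 hτ0
    nlinarith
  set a : ℤ := ⌊(l g' / l e₁).re⌋ with ha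
  have hfin : l (g' * e₁ ^ (-a)) = l g' - a * l e₁ := LB_mulz L g' e₁ a
  have hz : l (g' * e₁ ^ (-a)) = 0 := by
    by_contra hne
    have h1 := hmin1 _ hne
    rw [hfin] at h1
    have h2 : l g' - a * l e₁ = (l g' / l e₁ - a) * l e₁ := by field_simp
    rw [h2, norm_mul] at h1
    have h3 : l g' / l e₁ - a = (((l g' / l e₁).re - a : ℝ) : ℂ) := by
      apply Complex.ext
      · simp
      · simp [him]
    rw [h3, Complex.norm_real, Real.norm_eq_abs] at h1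
    have h4 := Int.floor_le (l g' / l e₁).re
    have h5 := Int.lt_floor_add_one (l g' / l e₁).re
    have h6 : |(l g' / l e₁).re - a| < 1 := by
      rw [abs_of_nonneg (by rw [ha]; linarith)]
      rw [ha]; linarith
    nlinarith
  refine ⟨a, b, ?_⟩
  rw [hz] at hfin
  rw [hlg'] at hfin
  linear_combination (-1 : ℂ) * hfin

end TOR
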