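import Pool.Agent.H57.TOR.HO
import Pool.Agent.H57.TOR.AB
import Pool.Agent.H57.TOR.AG
import Pool.Agent.H57.TOR.LA
import Pool.Agent.H57.TOR.LB
import Pool.Agent.H57.TOR.C1
import Pool.Agent.H57.TOR.C2
import Pool.Agent.H57.TOR.C3

/-!
FI: assembly of the torus case.
-/

namespace TOR

open Metric Set Filter Topology Function DS TN CV

theorem FI_pow {Γ : Type} [Group Γ] (θ : Γ ≃* Γ) (n : ℕ) :
    ∃ σ : Γ ≃* Γ, ∀ (j : ℕ) (d : Γ), σ^[j] d = θ^[n * j] d := by
  have h1 : ∃ σ : Γ ≃* Γ, ∀ d, σ d = θ^[n] d := by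
    induction n with
    | zero => exact ⟨MulEquiv.refl Γ, fun d => rfl⟩
    | succ n ih =>
      obtain ⟨σ, hσ⟩ := ih
      refine ⟨θ.trans σ, fun d => ?_⟩
      rw [MulEquiv.trans_apply, hσ, ← iterate_succ_apply]
  obtain ⟨σ, hσ⟩ := h1
  refine ⟨σ, fun j => ?_⟩
  induction j with
  | zero => intro d; rfl
  | succ j ih =>
    intro d
    rw [iterate_succ_apply, ih, hσ, ← iterate_add_apply, Nat.mul_succ]

section lat
variable {Γ : Type} [Group Γ] {l : Γ → ℂ}

theorem Lat.one (hl : Lat l) : l 1 = 0 := by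
  have := hl.mul 1 1
  rw [mul_one] at this
  simpa using this

theorem Lat.inv (hl : Lat l) (g : Γ) : l g⁻¹ = - l g := by
  have := hl.mul g g⁻¹
  rw [mul_inv_cancel, hl.one] at this
  exact (neg_eq_of_add_eq_zero_right this.symm).symm

theorem Lat.pow (hl : Lat l) (g : Γ) (n : ℕ) : l (g ^ n) = n * l g := by
  induction n with
  | zero => simp [hl.one]
  | succ n ih =>
    rw [pow_succ, hl.mul, ih]
    push_cast
    ring

theorem Lat.zpow (hl : Lat l) (g : Γ) (n : ℤ) : l (g ^ n) = n * l g := by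
  cases n with
  | ofNat n => simp [hl.pow]
  | negSucc n =>
    rw [zpow_negSucc, hl.inv, hl.pow]
    push_cast
    ring

theorem FI_comb (hl : Lat l) {f₁ f₂ d : Γ} {a b : ℤ} (h : l d = a * l f₁ + b * l f₂) :
    d = f₁ ^ a * f₂ ^ b := by
  apply hl.inj
  rw [h, hl.mul, hl.zpow, hl.zpow]

theorem FI_im {e₁ e₂ : ℂ} (h1 : e₁ ≠ 0) (a b : ℝ) : ((a * e₁ + b * e₂) / e₁).im = b * (e₂ / e₁).im := by
  have : ((a : ℂ) * e₁ + b * e₂) / e₁ = (a : ℂ) + b * (e₂ / e₁) := by
    field_simp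
  rw [this, Complex.add_im, Complex.ofReal_im, zero_add, Complex.im_ofReal_mul]

/-- parabolic or trivial automorphism -/
theorem FI_uni (hl : Lat l) {f₁ f₂ : Γ} (B : Bas l f₁ f₂) {σ : Γ →* Γ} {n : ℤ} (h1 : σ f₁ = f₁)
    (h2 : l (σ f₂) = l f₂ + n * l f₁) {V : ℂ → ℂ} (hV : Continuous V)
    (hVl : ∀ x d, V (x + l d) = V x + (l (σ d) - l d)) {Z : AddSubgroup ℂ}
    (hZ : ∀ z, z ∈ Z ↔ ∃ d, σ d = d ∧ l d = z) {m : ℕ} {k : Fin m → ℂ} {V' : ℂ → ℂ}
    (F : Field Z V' m k) {R : ℝ} (hR : ∀ x, (∀ z ∈ Z, R ≤ ‖x + z‖) → V' x = V x) : m = 0 := by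
  have hd : ∀ d (a b : ℤ), l d = a * l f₁ + b * l f₂ → l (σ d) - l d = b * (n * l f₁) := by
    intro d a b h
    have e1 := FI_comb hl h
    have e2 : σ d = f₁ ^ a * (σ f₂) ^ b := by
      rw [e1, map_mul, map_zpow, map_zpow, h1]
    rw [e2, hl.mul, hl.zpow, hl.zpow, h2, h]
    ring
  by_cases hn : n = 0
  · subst hn
    refine c1 F B.ne B.im fun z => ?_
    rw [hZ]
    constructor
    · rintro ⟨d, -, rfl⟩
      exact B.gen d
    · rintro ⟨a, b, rfl⟩
      refine ⟨f₁ ^ a * f₂ ^ b, ?_, ?_⟩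
      · apply hl.inj
        have h3 : l (f₁ ^ a * f₂ ^ b) = a * l f₁ + b * l f₂ := by rw [hl.mul, hl.zpow, hl.zpow]
        have h4 := hd _ a b h3
        simp only [Int.cast_zero, zero_mul, mul_zero] at h4
        exact sub_eq_zero.1 h4
      · rw [hl.mul, hl.zpow, hl.zpow]
  · have hZ' : Z = AddSubgroup.zmultiples (l f₁) := by
      ext z
      rw [hZ, AddSubgroup.mem_zmultiples_iff]
      constructor
      · rintro ⟨d, hdd, rfl⟩
        obtain ⟨a, b, hab⟩ := B.gen d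
        have h3 := hd d a b hab
        rw [hdd, sub_self] at h3
        have h4 : b = 0 := by
          by_contra hb
          have hb' : (b : ℂ) ≠ 0 := Int.cast_ne_zero.2 hb
          have hn' : (n : ℂ) ≠ 0 := Int.cast_ne_zero.2 hn
          exact (mul_ne_zero hb' (mul_ne_zero hn' B.ne)) h3.symm
        refine ⟨a, ?_⟩
        rw [hab, h4]
        simp
      · rintro ⟨a, rfl⟩
        refine ⟨f₁ ^ a, by rw [map_zpow, h1], ?_⟩
        rw [hl.zpow, zsmul_eq_mul]
    subst hZ'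
    set T : ℂ → ℂ := fun x => (((n : ℝ) * ((x / l f₁).im / (l f₂ / l f₁).im) : ℝ) : ℂ) * l f₁ with hT
    have hTc : Continuous T := by
      rw [hT]
      have : Continuous fun x : ℂ => (x / l f₁).im := Complex.continuous_im.comp (continuous_id.div_const _)
      fun_prop
    have hTa : ∀ x y, T (x + y) = T x + T y := by
      intro x y
      simp only [hT, add_div, Complex.add_im]
      push_cast
      ring
    obtain ⟨C, hC⟩ := bd hl hV hTc hTa (by
      intro x d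
      rw [hVl]
      congr 1
      obtain ⟨a, b, hab⟩ := B.gen d
      rw [hd d a b hab, hab]
      simp only [hT]
      have := FI_im (e₂ := l f₂) B.ne a b
      push_cast at this
      rw [this, mul_div_cancel_right₀ _ B.im]
      push_cast
      ring)
    refine c2 F B.ne B.im hn (C := C) (T := R / ‖l f₁‖) fun x hx => ?_
    have h3 : V' x = V x := by
      apply hR
      intro z hz
      rw [AddSubgroup.mem_zmultiples_iff] at hz
      obtain ⟨a, rfl⟩ := hz
      have hp : 0 < ‖l f₁‖ := norm_pos_iff.2 B.ne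
      rw [div_le_iff₀ hp] at hx
      refine hx.trans ?_
      have h4 : ((x + a • l f₁) / l f₁).im = (x / l f₁).im := by
        rw [zsmul_eq_mul, add_div, mul_div_cancel_right₀ _ B.ne, Complex.add_im, Complex.intCast_im,
          add_zero]
      rw [← h4]
      calc |((x + a • l f₁) / l f₁).im| * ‖l f₁‖ ≤ ‖(x + a • l f₁) / l f₁‖ * ‖l f₁‖ := by
            gcongr
            exact Complex.abs_im_le_norm _
        _ = ‖x + a • l f₁‖ := by
            rw [norm_div, div_mul_cancel₀ _ hp.ne']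
    rw [h3]
    exact hC x

/-- hyperbolic automorphism -/
theorem FI_hyp (hl : Lat l) {f₁ f₂ : Γ} (B : Bas l f₁ f₂) {σ : Γ →* Γ} {a b c d : ℤ}
    (h1 : l (σ f₁) = l f₁ + (a * l f₁ + c * l f₂)) (h2 : l (σ f₂) = l f₂ + (b * l f₁ + d * l f₂))
    (hdet : a * d - b * c < 0) {V : ℂ → ℂ} (hV : Continuous V)
    (hVl : ∀ x d, V (x + l d) = V x + (l (σ d) - l d)) {Z : AddSubgroup ℂ}
    (hZ : ∀ z, z ∈ Z ↔ ∃ d, σ d = d ∧ l d = z) {m : ℕ} {k : Fin m → ℂ} {V' : ℂ → ℂ}
    (F : Field Z V' m k) {R : ℝ} (hR : ∀ x, (∀ z ∈ Z, R ≤ ‖x + z‖) → V' x = V x) : False := by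
  obtain ⟨α, β, hαβ, e1, e2⟩ := ab B.ne B.im rfl rfl hdet
  set T : ℂ → ℂ := fun x => α * x + β * (starRingEnd ℂ) x with hT
  have hTc : Continuous T := by
    rw [hT]
    have := Complex.continuous_conj
    fun_prop
  have hTa : ∀ x y, T (x + y) = T x + T y := by
    intro x y
    simp only [hT, map_add]
    ring
  have hTl : ∀ g, T (l g) = l (σ g) - l g := by
    intro g
    obtain ⟨x, y, hxy⟩ := B.gen g
    have e3 := FI_comb hl hxy
    have e4 : σ g = (σ f₁) ^ x * (σ f₂) ^ y := by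
      rw [e3, map_mul, map_zpow, map_zpow]
    have hc : ∀ t : ℤ, (starRingEnd ℂ) (t : ℂ) = t := fun t => by simp
    rw [e4, hl.mul, hl.zpow, hl.zpow, h1, h2, hxy]
    simp only [hT, map_add, map_mul, hc]
    linear_combination (x : ℂ) * e1 + (y : ℂ) * e2
  have hZ' : Z = ⊥ := by
    ext z
    rw [hZ, AddSubgroup.mem_bot]
    constructor
    · rintro ⟨g, hg, rfl⟩
      have h3 := hTl g
      rw [hg, sub_self] at h3
      by_contra h0
      have h4 : ‖α * l g‖ = ‖β * (starRingEnd ℂ) (l g)‖ := by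
        rw [← norm_neg (β * _)]
        congr 1
        simp only [hT] at h3
        linear_combination h3
      rw [norm_mul, norm_mul, RCLike.norm_conj] at h4
      exact hαβ.ne (mul_right_cancel₀ (norm_ne_zero_iff.2 h0) h4)
    · rintro rfl
      exact ⟨1, map_one σ, hl.one⟩
  subst hZ'
  obtain ⟨C, hC⟩ := bd hl hV hTc hTa (fun x g => by rw [hVl, hTl])
  refine c3 F hαβ (C := C) (R := R) fun x hx => ?_
  have h3 : V' x = V x := by
    apply hR
    intro z hz
    rw [AddSubgroup.mem_bot] at hz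
    rw [hz, add_zero]
    exact hx
  rw [h3]
  exact hC x

end lat

variable {S : Type} [MetricSpace S] [CompactSpace S] {X : Set ℂ} {Γ : Type} [Group Γ]
  {A : Γ → ℂ → ℂ} {p : ℂ → S} {g gi : S → S} {G Gi : ℂ → ℂ} {θ : Γ ≃* Γ} {ρ : ℂ → ℝ}
  {Hyp : S → Prop} {U : Set ℂ} {N : Subgroup Γ}

theorem case_torus' (D : Deck X A p) (L : Lift X A p g gi G Gi θ ρ) (C : Cond X A p g gi G Hyp)
    (M : Dom X A p g G U N) (hW : fil X U = univ) (hper : ∃ x ∈ X, p x ∈ periodicPts g) :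
    False := by
  have hX : X = univ := by
    rw [eq_univ_iff_forall]
    intro x
    have h : x ∈ fil X U := by rw [hW]; exact mem_univ x
    exact h.1
  obtain ⟨l, hl, hA⟩ := la_lat D hX
  obtain ⟨e₁, e₂, B⟩ := la_bas hl
  obtain ⟨x₀, hx₀, n₀, hn₀, hp⟩ := hper
  obtain ⟨σ, hσ⟩ := FI_pow θ n₀
  obtain ⟨j, hj, H⟩ := ag hl B σ
  have hn : 0 < n₀ * j := Nat.mul_pos hn₀ hj
  set n := n₀ * j with hndef
  obtain ⟨i1, -, -, -, i5, -, i7, i8⟩ := L.iter n
  have hpn : g^[n] (p x₀) = p x₀ := by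
    have h1 : IsPeriodicPt g n₀ (p x₀) := hp
    exact (h1.mul_const j)
  obtain ⟨c, hc⟩ : ∃ c, A c (G^[n] x₀) = x₀ := by
    rw [← D.fib _ (i1 hx₀) _ hx₀, i8 x₀ hx₀, hpn]
  -- the fixed subgroup
  let τ : Γ →* Γ := { toFun := θ^[n], map_one' := iterate_map_one θ n, map_mul' := iterate_map_mul θ n }
  have hτ : ∀ d, τ d = θ^[n] d := fun d => rfl
  have hτσ : ∀ d, σ^[j] d = τ d := fun d => hσ j d
  let Z : AddSubgroup ℂ :=
    { carrier := {z | ∃ d, τ d = d ∧ l d = z}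
      add_mem' := by
        rintro _ _ ⟨d, h1, rfl⟩ ⟨e, h2, rfl⟩
        exact ⟨d * e, by rw [map_mul, h1, h2], hl.mul d e⟩
      zero_mem' := ⟨1, map_one τ, hl.one⟩
      neg_mem' := by
        rintro _ ⟨d, h1, rfl⟩
        exact ⟨d⁻¹, by rw [map_inv, h1], hl.inv d⟩ }
  have hZ : ∀ z, z ∈ Z ↔ ∃ d, τ d = d ∧ l d = z := fun z => Iff.rfl
  obtain ⟨m, k, V', F, ⟨R, hR⟩, hm⟩ := ho D L C M hX hW hl hA hn c (Z := Z) hZ
  have hm0 := hm x₀ hc
  have hV : Continuous fun x => A c (G^[n] x) - x := by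
    have h1 : Continuous (G^[n]) := by
      have := i5.continuousOn
      rw [hX] at this
      exact continuousOn_univ.1 this
    have h2 : (fun x => A c (G^[n] x) - x) = fun x => G^[n] x + l c - x := by
      funext x
      rw [hA]
    rw [h2]
    fun_prop
  have hVl : ∀ x d, (fun x => A c (G^[n] x) - x) (x + l d) =
      (fun x => A c (G^[n] x) - x) x + (l (τ d) - l d) := by
    intro x d
    have h1 : G^[n] (x + l d) = G^[n] x + l (τ d) := by
      have hx : x ∈ X := by rw [hX]; exact mem_univ x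
      have h2 := i7 d x hx
      rw [hA, hA] at h2
      exact h2
    simp only [hA, h1]
    ring
  rcases H with ⟨f₁, f₂, nn, B', h1, h2⟩ | ⟨a, b, c', d, h1, h2, hdet⟩
  · have := FI_uni hl B' (σ := τ) (n := nn) (by rw [← hτσ]; exact h1) (by rw [← hτσ]; exact h2) hV
      hVl hZ F hR
    omega
  · exact FI_hyp hl B (σ := τ) (by rw [← hτσ]; exact h1) (by rw [← hτσ]; exact h2) hdet hV hVl hZ F hR

end TOR
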