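import Pool.Agent.H12.CV.DK
import Pool.Agent.H36.DS.IB

/-!
Project MP_8a27c0_TN, block B14 (helper57): the torus case ((2.3) of the note).  Definitions.

Plan.  `X` is the plane, `W = fil X U` is the plane, `Γ` acts by the lattice `l : Γ → ℂ`, `H = A c ∘ G^n` fixes a point,
`V x = H x - x`, `V (x + l d) = V x + l (θ^n d) - l d`.  The fixed points of `H` are in finitely many islands modulo
`Z = {l d | θ^n d = d}`; `MD` changes `V` inside the islands, so that it has simple zeros (of index one) at points `k i + z`.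
By the choice of `n` (`AM`, `AG`) the automorphism `θ^n` of the lattice is either hyperbolic (`det (θ^n - 1) < 0`; then `Z = 0` and
`V x = a x + b conj x + O(1)`, `|a| < |b|`, so the number of zeros is the winding number `-1` at infinity, `C3`), or it is
`e₁ ↦ e₁`, `e₂ ↦ e₂ + n e₁`; then `V` is `e₁`-periodic and its winding numbers along two lines `ℝ e₁ + i y e₁` on both sides of all zeros of one
period are equal (`C1` if `n = 0`, `C2` if `n ≠ 0`), so the number of zeros is `0` (`ST`).
-/

namespace TOR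

open Metric Set Filter Topology DS

/-- a continuous vector field on the plane, invariant under the translations in `Z`, whose zeros are the points `k i + z`, `z ∈ Z`,
all simple of index one -/
structure Field (Z : AddSubgroup ℂ) (V : ℂ → ℂ) (m : ℕ) (k : Fin m → ℂ) : Prop where
  cont : Continuous V
  inv : ∀ z ∈ Z, ∀ x, V (x + z) = V x
  zero : ∀ x, V x = 0 ↔ ∃ z ∈ Z, ∃ i, x + z = k i
  ne : ∀ i j, k i - k j ∈ Z → i = j
  loc : ∀ i, ∃ q : ℂ → ℂ, Continuous q ∧ (∀ x, q x ≠ 0) ∧ ∀ᶠ x in 𝓝 (k i), V x = (x - k i) * q x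

/-- `e₁`, `e₂` is a basis of the lattice `l Γ` -/
structure Bas {Γ : Type} (l : Γ → ℂ) (e₁ e₂ : Γ) : Prop where
  ne : l e₁ ≠ 0
  im : (l e₂ / l e₁).im ≠ 0
  gen : ∀ g, ∃ a b : ℤ, l g = a * l e₁ + b * l e₂

/-- `l` is the lattice of the group `Γ` -/
structure Lat {Γ : Type} [Group Γ] (l : Γ → ℂ) : Prop where
  mul : ∀ g h, l (g * h) = l g + l h
  inj : Function.Injective l
  fin : ∀ R : ℝ, {g | ‖l g‖ ≤ R}.Finite
  coc : ∃ R : ℝ, ∀ x : ℂ, ∃ g, ‖x + l g‖ ≤ R

end TOR
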