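import Pool.Agent.H57.TOR.MD
import Pool.Agent.H12.CV.HB
import Pool.Agent.H12.CV.B6

/-!
HO (the holes).  `choose_islands` gives `m` and islands `Y i` with `H Y i = Y i`, `H = A c ∘ G^n`; for `d` with `θ^n d = d` (`Γ` is commutative, as `l` is injective, so `c θ^n(d) c⁻¹ = θ^n d`), `d ≠ 1`, `A d '' Y i` is disjoint from `Y i` (`island_free`; the group is torsion free),
and from `Y j`.  `separate` gives neighbourhoods `V i`, `island_index` with `V i` gives `O i`, `k i`; then `md` for `V x = H x - x` and `Z`.  `R`: the `O i` are bounded.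
-/

namespace TOR

open Metric Set Filter Topology Function DS TN CV

variable {S : Type} [MetricSpace S] [CompactSpace S] {X : Set ℂ} {Γ : Type} [Group Γ]
  {A : Γ → ℂ → ℂ} {p : ℂ → S} {g gi : S → S} {G Gi : ℂ → ℂ} {θ : Γ ≃* Γ} {ρ : ℂ → ℝ}
  {Hyp : S → Prop} {U : Set ℂ} {N : Subgroup Γ}

theorem ho (D : Deck X A p) (L : Lift X A p g gi G Gi θ ρ) (C : Cond X A p g gi G Hyp)
    (M : Dom X A p g G U N) (hX : X = univ) (hW : fil X U = univ) {l : Γ → ℂ} (hl : Lat l)
    (hA : ∀ g x, A g x = x + l g) {n : ℕ} (hn : 0 < n) (c : Γ) {Z : AddSubgroup ℂ}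
    (hZ : ∀ z, z ∈ Z ↔ ∃ d, θ^[n] d = d ∧ l d = z) :
    ∃ (m : ℕ) (k : Fin m → ℂ) (V' : ℂ → ℂ), Field Z V' m k ∧
      (∃ R : ℝ, ∀ x, (∀ z ∈ Z, R ≤ ‖x + z‖) → V' x = A c (G^[n] x) - x) ∧
      ∀ x, A c (G^[n] x) = x → 0 < m := by
  have hall : ∀ x, x ∈ fil X U := fun x => by rw [hW]; exact mem_univ x
  have hXall : ∀ x, x ∈ X := fun x => by rw [hX]; exact mem_univ x
  have hNall : ∀ d, d ∈ N := fun d => fil_same D M (hall 0) (hall (A d 0))
  have hl1 : l 1 = 0 := by
    have := hl.mul 1 1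
    rw [mul_one] at this
    simpa using this
  have hcomm : ∀ a b : Γ, a * b = b * a := fun a b => hl.inj (by rw [hl.mul, hl.mul, add_comm])
  have hcj : ∀ d, c * θ^[n] d * c⁻¹ = θ^[n] d := fun d => by
    rw [hcomm c, mul_assoc, mul_inv_cancel, mul_one]
  have htf : ∀ d : Γ, d ≠ 1 → ∀ r : ℕ, 0 < r → d ^ r ≠ 1 := by
    intro d hd r hr h
    have hp : ∀ r : ℕ, l (d ^ r) = r * l d := by
      intro r
      induction r with
      | zero => simp [hl1]
      | succ r ih =>
        rw [pow_succ, hl.mul, ih]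
        push_cast
        ring
    have h1 := hp r
    rw [h, hl1] at h1
    have h2 : l d = 0 := by
      rcases mul_eq_zero.1 h1.symm with h3 | h3
      · exact absurd (Nat.cast_eq_zero.1 h3) hr.ne'
      · exact h3
    exact hd (hl.inj (by rw [h2, hl1]))
  obtain ⟨m, Y, hYI, hYH, hYd, hYf⟩ := choose_islands D L C M hn ⟨c, hNall c⟩
  simp only [hcj] at hYd hYf
  obtain ⟨V, hV, hVd⟩ := separate D isOpen_univ (fun x _ => hXall x) (fun i => (hYI i).cpt)
    (fun i => subset_univ _) (Z := {d | θ^[n] d = d}) (by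
      intro i j d hd hij
      by_cases h : i = j
      · subst h
        have hd1 : d ≠ 1 := by
          rcases hij with h | h
          · exact h
          · exact absurd rfl h
        exact island_free D L M (hYI i) (hNall d) (htf d hd1)
      · exact hYd i j d (hNall d) hd h)
  have h1 : ∀ i, ∃ O : Set ℂ, ∃ k ∈ Y i, IsOpen O ∧ Y i ⊆ O ∧ closure O ⊆ V i ∧
      Bornology.IsBounded O ∧ HasLog (fun x => (A c (G^[n] x) - x) / (x - k)) (frontier O) := by
    intro i
    obtain ⟨O, k, hk, h2, h3, h4, h5, h6, -⟩ := island_index D L C M hn ⟨c, hNall c⟩ (hYI i) (hYH i)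
      (hV i).1 (hV i).2.1 (H := fun x => A c (G^[n] x)) (Or.inl fun _ _ => rfl)
    exact ⟨O, k, hk, h2, h3, h4, h5, h6⟩
  choose O k hk hO hYO hOV hOb hOl using h1
  obtain ⟨-, -, -, -, i5, -, i7, -⟩ := L.iter n
  have hGc : Continuous (G^[n]) := by
    have := i5.continuousOn
    rw [hX] at this
    exact continuousOn_univ.1 this
  have hVc : Continuous fun x => A c (G^[n] x) - x := by
    have h2 : (fun x => A c (G^[n] x) - x) = fun x => G^[n] x + l c - x := by
      funext x
      rw [hA]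
    rw [h2]
    fun_prop
  obtain ⟨V', F, hV'⟩ := md (Z := Z) (m := m) (O := O) (k := k) (V := fun x => A c (G^[n] x) - x)
    (by
      intro R
      refine ((hl.fin R).image l).subset ?_
      rintro z ⟨hz, hzR⟩
      obtain ⟨d, -, rfl⟩ := (hZ z).1 hz
      exact ⟨d, hzR, rfl⟩) hVc (by
      intro z hz x
      obtain ⟨d, hd, rfl⟩ := (hZ z).1 hz
      have h2 := i7 d x (hXall x)
      rw [hd, hA, hA] at h2
      simp only [hA, h2]
      ring) hO hOb (fun i => hYO i (hk i)) (by
      intro i j z hz hij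
      obtain ⟨d, hd, rfl⟩ := (hZ z).1 hz
      have h2 : (d ≠ 1 ∨ i ≠ j) := by
        rcases hij with h | h
        · left
          rintro rfl
          exact h hl1
        · exact Or.inr h
      have h3 := hVd i j d hd h2
      refine Disjoint.mono ?_ ((hOV j).trans subset_closure) h3
      rintro _ ⟨x, hx, rfl⟩
      refine ⟨x, subset_closure (hOV i hx), ?_⟩
      rw [hA]) (by
      intro x hx
      obtain ⟨d, -, hd, i, hi⟩ := hYf x (hall x) (sub_eq_zero.1 hx)
      refine ⟨l d, (hZ _).2 ⟨d, hd, rfl⟩, i, hYO i ?_⟩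
      rw [hA] at hi
      exact hi) hOl
  refine ⟨m, k, V', F, ?_, ?_⟩
  · have h2 : ∀ i, ∃ R : ℝ, ∀ x ∈ O i, ‖x‖ < R := by
      intro i
      obtain ⟨R, hR⟩ := (hOb i).subset_ball 0
      exact ⟨R, fun x hx => mem_ball_zero_iff.1 (hR hx)⟩
    choose R hR using h2
    refine ⟨∑ i, |R i|, fun x hx => hV' x fun z hz i hi => ?_⟩
    have h3 := hR i _ hi
    have h4 : R i ≤ ∑ i, |R i| := (le_abs_self _).trans
      (Finset.single_le_sum (f := fun i => |R i|) (fun j _ => abs_nonneg _) (Finset.mem_univ i))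
    linarith [hx z hz]
  · intro x hx
    obtain ⟨d, -, hd, i, hi⟩ := hYf x (hall x) hx
    exact i.pos

end TOR
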