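import Pool.Agent.H57.TOR.Defs

/-!
MD (modification inside the holes).  Let `L i` be a continuous extension (`DS.IB_tietze`, the frontier is closed) of the logarithm of `V x / (x - k i)` on
`frontier (O i)` to the plane.  If `x + z ∈ O i` for some `z ∈ Z`, `i`, these are unique (`hd`: if `x + z ∈ O i`, `x + z' ∈ O j`, then
`x + z' = (x + z) + (z' - z)`), and we put `V' x = (x + z - k i) * exp (L i (x + z))`; otherwise `V' x = V x`.
The same formula holds on the closed set `K (z, i) = {x | x + z ∈ closure (O i)}`: if `x + z ∈ frontier (O i)`, then `x + z' ∉ O j` for all `z'`, `j` (`hd` again, and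
`frontier (O i)` is disjoint from the open set `O i`), so `V' x = V x = V (x + z) = (x + z - k i) * exp (L i (x + z))` (`x + z ≠ k i`, as `k i ∈ O i`).
Continuity: the closed sets `K (z, i)` (`z ∈ Z`, `i`) and `K₀ = {x | ∀ z ∈ Z, ∀ i, x + z ∉ O i}` cover the plane, form a locally finite family (index type
`Option (Z × Fin m)`: the ball of radius `1` about `x` meets `K (z, i)` only if `‖z‖ ≤ ‖x‖ + 1 + ρ`, `closure (O i) ⊆ closedBall 0 ρ`), and `V'` is continuous on each of them:
`LocallyFinite.continuous`.  (`K₀` is closed: its complement is a union of open sets.)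
Invariance: `x + z' + z ∈ O i` iff `x + (z' + z) ∈ O i`.  Zeros: `h0`, `exp ≠ 0`; if `x + z = k i` then `x + z ∈ O i`.  `ne`: if `k i - k j = z ∈ Z` then `k j + z = k i`; `hd` for `j`, `i`
gives `z = 0` and `j = i`.  `loc`: `q = exp ∘ L i`, on the neighbourhood `O i` of `k i` (`z = 0`).
-/

namespace TOR

open Metric Set Filter Topology DS

theorem MD_uniq {m : ℕ} {Z : AddSubgroup ℂ} {O : Fin m → Set ℂ}
    (hd : ∀ i j, ∀ z ∈ Z, (z ≠ 0 ∨ i ≠ j) →
      Disjoint ((fun x => x + z) '' closure (O i)) (closure (O j)))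
    {x z z' : ℂ} (hz : z ∈ Z) (hz' : z' ∈ Z) {i j : Fin m} (h1 : x + z ∈ closure (O i))
    (h2 : x + z' ∈ closure (O j)) : z = z' ∧ i = j := by
  by_contra hne
  have h3 : z' - z ≠ 0 ∨ i ≠ j := by
    by_cases h : z = z'
    · right
      intro h'
      exact hne ⟨h, h'⟩
    · left
      intro h'
      exact h (sub_eq_zero.1 h').symm
  have h4 := hd i j (z' - z) (Z.sub_mem hz' hz) h3
  refine Set.disjoint_left.1 h4 ⟨x + z, h1, ?_⟩ h2
  show x + z + (z' - z) = x + z'
  ring

theorem md {m : ℕ} {Z : AddSubgroup ℂ} (hZ : ∀ R : ℝ, {z : ℂ | z ∈ Z ∧ ‖z‖ ≤ R}.Finite) {V : ℂ → ℂ}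
    (hV : Continuous V) (hi : ∀ z ∈ Z, ∀ x, V (x + z) = V x) {O : Fin m → Set ℂ} {k : Fin m → ℂ}
    (hO : ∀ i, IsOpen (O i)) (hb : ∀ i, Bornology.IsBounded (O i)) (hk : ∀ i, k i ∈ O i)
    (hd : ∀ i j, ∀ z ∈ Z, (z ≠ 0 ∨ i ≠ j) →
      Disjoint ((fun x => x + z) '' closure (O i)) (closure (O j)))
    (h0 : ∀ x, V x = 0 → ∃ z ∈ Z, ∃ i, x + z ∈ O i)
    (hl : ∀ i, HasLog (fun x => V x / (x - k i)) (frontier (O i))) :
    ∃ V' : ℂ → ℂ, Field Z V' m k ∧ ∀ x, (∀ z ∈ Z, ∀ i, x + z ∉ O i) → V' x = V x := by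
  classical
  -- the logarithms
  have hL : ∀ i, ∃ L : ℂ → ℂ, Continuous L ∧
      ∀ x ∈ frontier (O i), V x = (x - k i) * Complex.exp (L x) := by
    intro i
    obtain ⟨L, hLc, hLe⟩ := hl i
    obtain ⟨L', hL'c, hL'e⟩ := IB_tietze isClosed_frontier hLc
    refine ⟨L', hL'c, fun x hx => ?_⟩
    have hne : x - k i ≠ 0 := by
      intro h
      rw [sub_eq_zero] at h
      have h1 : x ∉ O i := by
        have := hx
        rw [(hO i).frontier_eq] at this
        exact this.2
      exact h1 (h ▸ hk i)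
    rw [hL'e x hx, ← hLe x hx, mul_div_cancel₀ _ hne]
  choose L hLc hLe using hL
  obtain ⟨V', hV'⟩ : ∃ V' : ℂ → ℂ, V' = fun x =>
      if h : ∃ q : Z × Fin m, x + (q.1 : ℂ) ∈ O q.2 then
        (x + (h.choose.1 : ℂ) - k h.choose.2) * Complex.exp (L h.choose.2 (x + (h.choose.1 : ℂ)))
      else V x := ⟨_, rfl⟩
  have hB : ∀ x, (∀ z ∈ Z, ∀ i, x + z ∉ O i) → V' x = V x := by
    intro x hx
    rw [hV']
    have : ¬ ∃ q : Z × Fin m, x + (q.1 : ℂ) ∈ O q.2 := by
      rintro ⟨q, hq⟩
      exact hx q.1 q.1.2 q.2 hq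
    simp only [dif_neg this]
  have hA : ∀ z ∈ Z, ∀ i, ∀ x, x + z ∈ closure (O i) →
      V' x = (x + z - k i) * Complex.exp (L i (x + z)) := by
    intro z hz i x hx
    by_cases hxO : x + z ∈ O i
    · have hex : ∃ q : Z × Fin m, x + (q.1 : ℂ) ∈ O q.2 := ⟨(⟨z, hz⟩, i), hxO⟩
      obtain ⟨e1, e2⟩ := MD_uniq hd hz hex.choose.1.2 hx (subset_closure hex.choose_spec)
      rw [hV']
      simp only [dif_pos hex]
      rw [← e1, ← e2]
    · have h1 : x + z ∈ frontier (O i) := by
        rw [(hO i).frontier_eq]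
        exact ⟨hx, hxO⟩
      rw [hB x, ← hi z hz x]
      · exact hLe i _ h1
      · intro z' hz' j hj
        obtain ⟨e1, e2⟩ := MD_uniq hd hz hz' hx (subset_closure hj)
        rw [← e1, ← e2] at hj
        exact hxO hj
  refine ⟨V', ?_, hB⟩
  have hcont : Continuous V' := by
    obtain ⟨ρ, hρ⟩ : ∃ ρ : ℝ, ∀ i, ∀ w ∈ closure (O i), ‖w‖ ≤ ρ := by
      have h1 : Bornology.IsBounded (⋃ i, closure (O i)) :=
        Bornology.isBounded_iUnion.2 fun i => (hb i).closure
      obtain ⟨ρ, hρ⟩ := isBounded_iff_forall_norm_le.1 h1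
      exact ⟨ρ, fun i w hw => hρ w (mem_iUnion.2 ⟨i, hw⟩)⟩
    obtain ⟨A, hAd⟩ : ∃ A : Option (Z × Fin m) → Set ℂ, A = fun o =>
        match o with
        | none => {x | ∀ z ∈ Z, ∀ i, x + z ∉ O i}
        | some q => {x | x + (q.1 : ℂ) ∈ closure (O q.2)} := ⟨_, rfl⟩
    have A0 : A none = {x | ∀ z ∈ Z, ∀ i, x + z ∉ O i} := by rw [hAd]
    have A1 : ∀ q : Z × Fin m, A (some q) = {x | x + (q.1 : ℂ) ∈ closure (O q.2)} := by
      intro q; rw [hAd]
    have hlf : LocallyFinite A := by
      intro x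
      refine ⟨ball x 1, ball_mem_nhds x one_pos, ?_⟩
      have hfin : (({z : Z | ‖(z : ℂ)‖ ≤ ‖x‖ + 1 + ρ}) ×ˢ (univ : Set (Fin m))).Finite := by
        refine Set.Finite.prod ?_ finite_univ
        have h1 := hZ (‖x‖ + 1 + ρ)
        refine Set.Finite.of_finite_image (f := fun z : Z => (z : ℂ)) (h1.subset ?_)
          Subtype.val_injective.injOn
        rintro _ ⟨z, hz, rfl⟩
        exact ⟨z.2, hz⟩
      refine ((hfin.image some).insert none).subset ?_
      rintro o ⟨y, hy1, hy2⟩
      rcases o with _ | q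
      · exact mem_insert _ _
      · right
        refine ⟨q, ⟨?_, mem_univ _⟩, rfl⟩
        rw [A1] at hy1
        have h1 := hρ q.2 _ hy1
        have h2 : ‖y‖ ≤ ‖x‖ + 1 := by
          rw [mem_ball, dist_eq_norm] at hy2
          have := norm_sub_norm_le y x
          linarith
        show ‖(q.1 : ℂ)‖ ≤ ‖x‖ + 1 + ρ
        have h3 : (q.1 : ℂ) = (y + q.1) - y := by ring
        rw [h3]
        refine (norm_sub_le _ _).trans ?_
        linarith
    refine hlf.continuous ?_ ?_ ?_
    · rw [eq_univ_iff_forall]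
      intro x
      by_cases h : ∀ z ∈ Z, ∀ i, x + z ∉ O i
      · exact mem_iUnion.2 ⟨none, by rw [A0]; exact h⟩
      · push Not at h
        obtain ⟨z, hz, i, hzi⟩ := h
        refine mem_iUnion.2 ⟨some (⟨z, hz⟩, i), ?_⟩
        rw [A1]
        exact subset_closure hzi
    · intro o
      rcases o with _ | q
      · rw [A0]
        have : {x | ∀ z ∈ Z, ∀ i, x + z ∉ O i} =
            ⋂ (z : Z), ⋂ (i : Fin m), {x | x + (z : ℂ) ∈ O i}ᶜ := by
          ext x
          simp only [mem_iInter, mem_compl_iff]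
          constructor
          · intro h z i
            exact h z z.2 i
          · intro h z hz i
            exact h ⟨z, hz⟩ i
        rw [this]
        refine isClosed_iInter fun z => isClosed_iInter fun i => ?_
        have h1 : IsOpen {x : ℂ | x + (z : ℂ) ∈ O i} :=
          (hO i).preimage (continuous_id.add continuous_const)
        exact h1.isClosed_compl
      · rw [A1]
        exact isClosed_closure.preimage (continuous_id.add continuous_const)
    · intro o
      rcases o with _ | q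
      · rw [A0]
        exact hV.continuousOn.congr fun x hx => hB x hx
      · rw [A1]
        have h1 : Continuous fun x => (x + (q.1 : ℂ) - k q.2) *
            Complex.exp (L q.2 (x + (q.1 : ℂ))) := by
          have := (hLc q.2).comp (continuous_id.add (continuous_const (y := (q.1 : ℂ))))
          exact ((continuous_id.add continuous_const).sub continuous_const).mul
            (Complex.continuous_exp.comp this)
        exact h1.continuousOn.congr fun x hx => hA q.1 q.1.2 q.2 x hx
  refine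
    { cont := hcont
      inv := ?_
      zero := ?_
      ne := ?_
      loc := ?_ }
  · intro z' hz' x
    by_cases h : ∀ z ∈ Z, ∀ i, x + z ∉ O i
    · rw [hB x h, hB (x + z'), hi z' hz']
      intro z hz i
      rw [add_assoc]
      exact h _ (Z.add_mem hz' hz) i
    · push Not at h
      obtain ⟨z, hz, i, hzi⟩ := h
      have e : x + z' + (z - z') = x + z := by ring
      rw [hA z hz i x (subset_closure hzi),
        hA (z - z') (Z.sub_mem hz hz') i (x + z') (by rw [e]; exact subset_closure hzi), e]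
  · intro x
    constructor
    · intro hx
      by_cases h : ∀ z ∈ Z, ∀ i, x + z ∉ O i
      · rw [hB x h] at hx
        obtain ⟨z, hz, i, hzi⟩ := h0 x hx
        exact absurd hzi (h z hz i)
      · push Not at h
        obtain ⟨z, hz, i, hzi⟩ := h
        rw [hA z hz i x (subset_closure hzi)] at hx
        rcases mul_eq_zero.1 hx with h1 | h1
        · exact ⟨z, hz, i, sub_eq_zero.1 h1⟩
        · exact absurd h1 (Complex.exp_ne_zero _)
    · rintro ⟨z, hz, i, hzi⟩
      rw [hA z hz i x (by rw [hzi]; exact subset_closure (hk i)), hzi, sub_self, zero_mul]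
  · intro i j hij
    have h1 := MD_uniq hd (x := k j) hij Z.zero_mem (i := i) (j := j)
      (by rw [add_sub_cancel]; exact subset_closure (hk i))
      (by rw [add_zero]; exact subset_closure (hk j))
    exact h1.2
  · intro i
    refine ⟨fun x => Complex.exp (L i x), Complex.continuous_exp.comp (hLc i),
      fun x => Complex.exp_ne_zero _, ?_⟩
    filter_upwards [(hO i).mem_nhds (hk i)] with x hx
    have h1 := hA 0 Z.zero_mem i x (by rw [add_zero]; exact subset_closure hx)
    rw [add_zero] at h1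
    exact h1

end TOR
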