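import Pool.Agent.H57.TOR.Defs

/-!
QU (division by a holomorphic function with the same simple zeros).  For `x` with `W x = 0` choose `q` and put `Q x = q x / deriv W x`; otherwise `Q x = V x / W x`.
Continuity at `x` with `W x ≠ 0`: `W` is nonzero near `x`, so `Q = V / W` near `x`.  At `x` with `W x = 0`: `W y = (y - x) * dslope W x y` (`dslope`, `sub_smul_dslope`),
`dslope W x` is continuous at `x` with the value `deriv W x ≠ 0` (`continuousAt_dslope_same`, `dslope_same`), so near `x`, for `y ≠ x`,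
`W y ≠ 0` and `Q y = V y / W y = q y / dslope W x y`, which is also true for `y = x`; so `Q` is continuous at `x`.
-/

namespace TOR

open Metric Set Filter Topology DS

theorem qu {V W : ℂ → ℂ} (hV : Continuous V) (hW : Differentiable ℂ W)
    (h : ∀ x, (V x ≠ 0 ∧ W x ≠ 0) ∨ (W x = 0 ∧ deriv W x ≠ 0 ∧
      ∃ q : ℂ → ℂ, ContinuousAt q x ∧ q x ≠ 0 ∧ ∀ᶠ y in 𝓝 x, V y = (y - x) * q y)) :
    ∃ Q : ℂ → ℂ, Continuous Q ∧ (∀ x, Q x ≠ 0) ∧ ∀ x, V x = Q x * W x := by
  classical
  have h' : ∀ x, W x = 0 → deriv W x ≠ 0 ∧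
      ∃ q : ℂ → ℂ, ContinuousAt q x ∧ q x ≠ 0 ∧ ∀ᶠ y in 𝓝 x, V y = (y - x) * q y := by
    intro x hx
    rcases h x with ⟨-, h1⟩ | ⟨-, h1, h2⟩
    · exact absurd hx h1
    · exact ⟨h1, h2⟩
  choose hd q hqc hq0 hq using h'
  let Q : ℂ → ℂ := fun x => if hx : W x = 0 then q x hx x / deriv W x else V x / W x
  have hQ0 : ∀ x (hx : W x = 0), Q x = q x hx x / deriv W x := fun x hx => dif_pos hx
  have hQ1 : ∀ x, W x ≠ 0 → Q x = V x / W x := fun x hx => dif_neg hx
  have hV1 : ∀ x, W x ≠ 0 → V x ≠ 0 := by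
    intro x hx
    rcases h x with ⟨h1, -⟩ | ⟨h1, -⟩
    · exact h1
    · exact absurd h1 hx
  refine ⟨Q, ?_, ?_, ?_⟩
  · rw [continuous_iff_continuousAt]
    intro x
    by_cases hx : W x = 0
    · have hds : ContinuousAt (dslope W x) x := continuousAt_dslope_same.2 (hW x)
      have hds0 : dslope W x x ≠ 0 := by rw [dslope_same]; exact hd x hx
      have h1 : ContinuousAt (fun y => q x hx y / dslope W x y) x := (hqc x hx).div hds hds0
      refine h1.congr ?_
      have h2 : ∀ᶠ y in 𝓝 x, dslope W x y ≠ 0 := hds.eventually_ne hds0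
      filter_upwards [h2, hq x hx] with y hy1 hy2
      by_cases hyx : y = x
      · subst hyx
        rw [hQ0 y hx, dslope_same]
      · have h3 : W y = (y - x) * dslope W x y := by
          have h4 := sub_smul_dslope W x y
          rw [smul_eq_mul, hx, sub_zero] at h4
          exact h4.symm
        have h5 : y - x ≠ 0 := sub_ne_zero.2 hyx
        have h6 : W y ≠ 0 := by rw [h3]; exact mul_ne_zero h5 hy1
        rw [hQ1 y h6, hy2, h3, mul_div_mul_left _ _ h5]
    · have h1 : ContinuousAt (fun y => V y / W y) x := hV.continuousAt.div (hW x).continuousAt hx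
      refine h1.congr ?_
      filter_upwards [(hW x).continuousAt.eventually_ne hx] with y hy
      exact (hQ1 y hy).symm
  · intro x
    by_cases hx : W x = 0
    · rw [hQ0 x hx]
      exact div_ne_zero (hq0 x hx) (hd x hx)
    · rw [hQ1 x hx]
      exact div_ne_zero (hV1 x hx) hx
  · intro x
    by_cases hx : W x = 0
    · have h1 := (hq x hx).self_of_nhds
      rw [h1, hx, sub_self, zero_mul, mul_zero]
    · rw [hQ1 x hx, div_mul_cancel₀ _ hx]

end TOR
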