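import Pool.Agent.H57.TOR.QU
import Pool.Agent.H57.TOR.LG

/-!
ST (the strip lemma).  Let `e x = exp (2 π I x)`, `W x = ∏ i, (e x - e (k i))`: entire, `W (x + 1) = W x`, `W x = 0` iff `x - k i` is an integer for some `i`, and then `deriv W x ≠ 0`
(the other factors do not vanish by `Field.ne`; `deriv e x = 2 π I e x ≠ 0`).  By `Field.zero`, `Field.loc` (moved to `x = k i + n` by `Field.inv`) `qu` applies: `V = Q W`, `Q` continuous
and nowhere zero, `Q = exp h` (`lg_exists`).  `Q (x + 1) = Q x` where `W x ≠ 0`, hence everywhere (both sides are continuous, and the set `W ≠ 0` is dense: or compare the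
formulas `V (x + 1) = V x`; the zeros of `W` are isolated), so `h (x + 1) = h x + u`, `u` constant (`lg_per2`).
On the line `Im x = y₂` we have `‖e (x - k i)‖ = exp (- 2 π (y₂ - Im (k i))) < 1`, `e x - e (k i) = - e (k i) * (1 - e (x - k i)) = exp (c i + log (1 - e (x - k i)))` with a constant `c i`; the principal logarithm is
continuous on the half plane `re > 0`, so `g₂ s = h (s + y₂ I) + ∑ i, (c i + log (1 - e (s + y₂ I - k i)))` is a continuous logarithm of `V (s + y₂ I)` with `g₂ (s + 1) = g₂ s + u`; by `lg_const` `ℓ₂ - g₂` is constant, so `w = u`.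
On the line `Im x = y₁`: `e x - e (k i) = e x * (1 - e (k i - x)) = exp (2 π I x + log (1 - e (k i - x)))`, so in the same way `w = u + m * 2 π I`.  Hence `m * 2 π I = 0`.
-/

namespace TOR

open Metric Set Filter Topology DS

/-- the exponential of period one -/
noncomputable def ST_e (x : ℂ) : ℂ := Complex.exp (2 * Real.pi * Complex.I * x)

theorem ST_e_ne (x : ℂ) : ST_e x ≠ 0 := Complex.exp_ne_zero _

theorem ST_e_cont : Continuous ST_e := by
  unfold ST_e
  fun_prop

theorem ST_e_diff : Differentiable ℂ ST_e := by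
  unfold ST_e
  fun_prop

theorem ST_e_add (x y : ℂ) : ST_e (x + y) = ST_e x * ST_e y := by
  unfold ST_e
  rw [← Complex.exp_add]
  congr 1
  ring

theorem ST_e_one : ST_e 1 = 1 := by
  unfold ST_e
  rw [mul_one]
  exact Complex.exp_two_pi_mul_I

theorem ST_e_per (x : ℂ) : ST_e (x + 1) = ST_e x := by
  rw [ST_e_add, ST_e_one, mul_one]

theorem ST_e_sub (x y : ℂ) : ST_e (x - y) * ST_e y = ST_e x := by
  rw [← ST_e_add, sub_add_cancel]

theorem ST_e_norm (x : ℂ) : ‖ST_e x‖ = Real.exp (-(2 * Real.pi * x.im)) := by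
  unfold ST_e
  rw [Complex.norm_exp]
  congr 1
  simp [Complex.mul_re, Complex.mul_im]

theorem ST_e_lt {x : ℂ} (h : 0 < x.im) : ‖ST_e x‖ < 1 := by
  rw [ST_e_norm, Real.exp_lt_one_iff]
  have := Real.pi_pos
  have h2 : 0 < 2 * Real.pi * x.im := by positivity
  linarith

theorem ST_e_eq {x y : ℂ} : ST_e x = ST_e y ↔ y - x ∈ AddSubgroup.zmultiples (1 : ℂ) := by
  unfold ST_e
  rw [Complex.exp_eq_exp_iff_exists_int, AddSubgroup.mem_zmultiples_iff]
  have hpi : (2 * Real.pi * Complex.I : ℂ) ≠ 0 := Complex.two_pi_I_ne_zero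
  constructor
  · rintro ⟨n, hn⟩
    refine ⟨-n, ?_⟩
    have h1 : 2 * Real.pi * Complex.I * (y - x + n) = 0 := by linear_combination -hn
    have h2 : y - x + n = 0 := by
      rcases mul_eq_zero.1 h1 with h3 | h3
      · exact absurd h3 hpi
      · exact h3
    rw [zsmul_eq_mul, mul_one]
    push_cast
    linear_combination -h2
  · rintro ⟨n, hn⟩
    refine ⟨-n, ?_⟩
    rw [zsmul_eq_mul, mul_one] at hn
    push_cast
    linear_combination (2 * Real.pi * Complex.I) * hn

/-- the product -/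
noncomputable def ST_W {m : ℕ} (k : Fin m → ℂ) (x : ℂ) : ℂ := ∏ i, (ST_e x - ST_e (k i))

theorem ST_W_diff {m : ℕ} (k : Fin m → ℂ) : Differentiable ℂ (ST_W k) := by
  unfold ST_W
  have := ST_e_diff
  fun_prop

theorem ST_W_per {m : ℕ} (k : Fin m → ℂ) (x : ℂ) : ST_W k (x + 1) = ST_W k x := by
  unfold ST_W
  rw [ST_e_per]

theorem ST_W_zero {m : ℕ} (k : Fin m → ℂ) (x : ℂ) : ST_W k x = 0 ↔ ∃ i, ST_e x = ST_e (k i) := by
  unfold ST_W
  rw [Finset.prod_eq_zero_iff]
  constructor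
  · rintro ⟨i, _, h⟩
    exact ⟨i, sub_eq_zero.1 h⟩
  · rintro ⟨i, h⟩
    exact ⟨i, Finset.mem_univ i, sub_eq_zero.2 h⟩

theorem ST_W_deriv {m : ℕ} {k : Fin m → ℂ} (hk : ∀ i j, k i - k j ∈ AddSubgroup.zmultiples (1 : ℂ) → i = j)
    {x : ℂ} (h : ST_W k x = 0) : deriv (ST_W k) x ≠ 0 := by
  obtain ⟨i, hi⟩ := (ST_W_zero k x).1 h
  have h1 : ST_W k = fun y => (ST_e y - ST_e (k i)) * ∏ j ∈ Finset.univ.erase i, (ST_e y - ST_e (k j)) := by
    funext y
    unfold ST_W
    rw [Finset.mul_prod_erase Finset.univ (fun j => ST_e y - ST_e (k j)) (Finset.mem_univ i)]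
  have h2 : HasDerivAt (fun y => ST_e y - ST_e (k i)) (ST_e x * (2 * Real.pi * Complex.I)) x := by
    have h3 : HasDerivAt (fun y : ℂ => 2 * Real.pi * Complex.I * y) (2 * Real.pi * Complex.I) x := by
      simpa using (hasDerivAt_id x).const_mul (2 * Real.pi * Complex.I)
    exact (h3.cexp).sub_const _
  have h3 : DifferentiableAt ℂ (fun y => ∏ j ∈ Finset.univ.erase i, (ST_e y - ST_e (k j))) x := by
    have := ST_e_diff
    fun_prop
  have h4 := h2.mul h3.hasDerivAt
  have h5 : deriv (ST_W k) x = ST_e x * (2 * Real.pi * Complex.I) *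
      ∏ j ∈ Finset.univ.erase i, (ST_e x - ST_e (k j)) := by
    have h6 : HasDerivAt (ST_W k) (ST_e x * (2 * Real.pi * Complex.I) *
        ∏ j ∈ Finset.univ.erase i, (ST_e x - ST_e (k j)) + (ST_e x - ST_e (k i)) *
        deriv (fun y => ∏ j ∈ Finset.univ.erase i, (ST_e y - ST_e (k j))) x) x := by
      rw [h1]
      exact h4
    rw [h6.deriv, hi, sub_self, zero_mul, add_zero]
  rw [h5]
  refine mul_ne_zero (mul_ne_zero (ST_e_ne x) Complex.two_pi_I_ne_zero) ?_
  rw [Finset.prod_ne_zero_iff]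
  intro j hj h6
  have h7 : ST_e (k j) = ST_e (k i) := by rw [← hi]; exact (sub_eq_zero.1 h6).symm
  have h8 := hk i j (ST_e_eq.1 h7)
  exact Finset.ne_of_mem_erase hj h8.symm

theorem ST_log {a : ℝ → ℂ} (ha : Continuous a) (h : ∀ s, ‖a s‖ < 1) :
    Continuous (fun s => Complex.log (1 - a s)) ∧ ∀ s, Complex.exp (Complex.log (1 - a s)) = 1 - a s := by
  have h1 : ∀ s, 1 - a s ∈ Complex.slitPlane := by
    intro s
    have h2 := Complex.mem_slitPlane_of_norm_lt_one (z := - a s) (by rw [norm_neg]; exact h s)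
    rwa [← sub_eq_add_neg] at h2
  constructor
  · exact Continuous.clog (by fun_prop) h1
  · intro s
    exact Complex.exp_log (Complex.slitPlane_ne_zero (h1 s))

theorem ST_Q {m : ℕ} {k : Fin m → ℂ} {V : ℂ → ℂ} (F : Field (AddSubgroup.zmultiples (1 : ℂ)) V m k) :
    ∃ (h : ℂ → ℂ) (u : ℂ), Continuous h ∧ (∀ x, V x = Complex.exp (h x) * ST_W k x) ∧ ∀ x, h (x + 1) = h x + u := by
  have hVW : ∀ x, V x = 0 ↔ ST_W k x = 0 := by
    intro x
    rw [F.zero, ST_W_zero]
    constructor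
    · rintro ⟨z, hz, i, h⟩
      refine ⟨i, ST_e_eq.2 ?_⟩
      rw [← h]
      simpa using hz
    · rintro ⟨i, h⟩
      exact ⟨k i - x, ST_e_eq.1 h, i, by ring⟩
  have hqu : ∀ x, (V x ≠ 0 ∧ ST_W k x ≠ 0) ∨ (ST_W k x = 0 ∧ deriv (ST_W k) x ≠ 0 ∧
      ∃ q : ℂ → ℂ, ContinuousAt q x ∧ q x ≠ 0 ∧ ∀ᶠ y in 𝓝 x, V y = (y - x) * q y) := by
    intro x
    by_cases hx : ST_W k x = 0
    · right
      refine ⟨hx, ST_W_deriv F.ne hx, ?_⟩
      obtain ⟨z, hz, i, hi⟩ := (F.zero x).1 ((hVW x).2 hx)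
      obtain ⟨q, hq, hq0, hqe⟩ := F.loc i
      refine ⟨fun y => q (y + z), (hq.comp (continuous_add_const z)).continuousAt, hq0 _, ?_⟩
      have h1 : Tendsto (fun y : ℂ => y + z) (𝓝 x) (𝓝 (k i)) := by
        rw [← hi]
        exact (continuous_add_const z).continuousAt
      filter_upwards [h1.eventually hqe] with y hy
      rw [← F.inv z hz y, hy, ← hi]
      ring
    · left
      exact ⟨fun h => hx ((hVW x).1 h), hx⟩
  obtain ⟨Q, hQ, hQ0, hVQ⟩ := qu F.cont (ST_W_diff k) hqu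
  have hdense : Dense {x | ST_W k x ≠ 0} := by
    intro x
    by_cases hx : ST_W k x = 0
    · have h1 : HasDerivAt (ST_W k) (deriv (ST_W k) x) x := (ST_W_diff k x).hasDerivAt
      have h2 : ∀ᶠ y in 𝓝[≠] x, ST_W k y ≠ 0 := h1.eventually_ne (ST_W_deriv F.ne hx)
      rw [mem_closure_iff_frequently]
      exact h2.frequently.filter_mono nhdsWithin_le_nhds
    · exact subset_closure hx
  have hQper : (fun x => Q (x + 1)) = Q := by
    refine Continuous.ext_on hdense (hQ.comp (continuous_add_const 1)) hQ ?_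
    intro x hx
    have h1 : V (x + 1) = V x := F.inv 1 (AddSubgroup.mem_zmultiples 1) x
    rw [hVQ, hVQ, ST_W_per] at h1
    exact mul_right_cancel₀ hx h1
  obtain ⟨h, hh, hQh⟩ := lg_exists hQ hQ0
  obtain ⟨u, hu⟩ := lg_per2 hh (fun s => by
    rw [← hQh, ← hQh]
    exact congrFun hQper s)
  refine ⟨h, u, hh, ?_, hu⟩
  intro x
  rw [hVQ, hQh]

theorem ST_w {f g : ℝ → ℂ} (hf : Continuous f) (hg : Continuous g)
    (h : ∀ s, Complex.exp (f s) = Complex.exp (g s)) {w u : ℂ} (hw : ∀ s, f (s + 1) = f s + w)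
    (hu : ∀ s, g (s + 1) = g s + u) : w = u := by
  have h1 := lg_const hf hg h (0 + 1) 0
  rw [hw, hu] at h1
  linear_combination h1

theorem st {m : ℕ} {k : Fin m → ℂ} {V : ℂ → ℂ} (F : Field (AddSubgroup.zmultiples (1 : ℂ)) V m k)
    {y₁ y₂ : ℝ} (hy₁ : ∀ i, y₁ < (k i).im) (hy₂ : ∀ i, (k i).im < y₂) {f₁ f₂ : ℝ → ℂ}
    (c₁ : Continuous f₁) (c₂ : Continuous f₂) (h₁ : ∀ s : ℝ, V (s + y₁ * Complex.I) = Complex.exp (f₁ s))
    (h₂ : ∀ s : ℝ, V (s + y₂ * Complex.I) = Complex.exp (f₂ s)) {w : ℂ}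
    (p₁ : ∀ s, f₁ (s + 1) = f₁ s + w) (p₂ : ∀ s, f₂ (s + 1) = f₂ s + w) : m = 0 := by
  obtain ⟨h, u, hh, hV, hu⟩ := ST_Q F
  have e2 : w = u := by
    have ha : ∀ i s, ‖ST_e ((s : ℝ) + y₂ * Complex.I - k i)‖ < 1 := by
      intro i s
      apply ST_e_lt
      simpa using hy₂ i
    have hc : ∀ i, Continuous (fun s : ℝ => ST_e ((s : ℂ) + y₂ * Complex.I - k i)) := by
      intro i
      exact ST_e_cont.comp (by fun_prop)
    have hcl := fun i => (ST_log (hc i) (ha i)).1
    have hcont : Continuous (fun s : ℝ => h ((s : ℂ) + y₂ * Complex.I) +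
        ∑ i, (Complex.log (- ST_e (k i)) + Complex.log (1 - ST_e ((s : ℂ) + y₂ * Complex.I - k i)))) := by
      refine Continuous.add (hh.comp (by fun_prop)) ?_
      exact continuous_finsetSum _ fun i _ => continuous_const.add (hcl i)
    refine ST_w c₂ hcont ?_ p₂ (u := u) ?_
    · intro s
      rw [← h₂, hV, Complex.exp_add, Complex.exp_sum]
      congr 1
      unfold ST_W
      refine Finset.prod_congr rfl fun i _ => ?_
      rw [Complex.exp_add, Complex.exp_log (neg_ne_zero.2 (ST_e_ne _)), (ST_log (hc i) (ha i)).2]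
      linear_combination -(ST_e_sub ((s : ℂ) + y₂ * Complex.I) (k i))
    · intro s
      have h3 : (((s + 1 : ℝ) : ℂ) + y₂ * Complex.I) = (s : ℂ) + y₂ * Complex.I + 1 := by
        push_cast
        ring
      have h4 : ∀ i, ((s : ℂ) + y₂ * Complex.I + 1 - k i) = ((s : ℂ) + y₂ * Complex.I - k i) + 1 := fun i => by ring
      simp only [h3, hu, h4, ST_e_per]
      ring
  have e1 : w = u + m * (2 * Real.pi * Complex.I) := by
    have ha : ∀ i s, ‖ST_e (k i - ((s : ℝ) + y₁ * Complex.I))‖ < 1 := by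
      intro i s
      apply ST_e_lt
      simpa using hy₁ i
    have hc : ∀ i, Continuous (fun s : ℝ => ST_e (k i - ((s : ℂ) + y₁ * Complex.I))) := by
      intro i
      exact ST_e_cont.comp (by fun_prop)
    have hcl := fun i => (ST_log (hc i) (ha i)).1
    have hcont : Continuous (fun s : ℝ => h ((s : ℂ) + y₁ * Complex.I) +
        ∑ i, (2 * Real.pi * Complex.I * ((s : ℂ) + y₁ * Complex.I) +
          Complex.log (1 - ST_e (k i - ((s : ℂ) + y₁ * Complex.I))))) := by
      refine Continuous.add (hh.comp (by fun_prop)) ?_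
      refine continuous_finsetSum _ fun i _ => Continuous.add ?_ (hcl i)
      fun_prop
    refine ST_w c₁ hcont ?_ p₁ (u := u + m * (2 * Real.pi * Complex.I)) ?_
    · intro s
      rw [← h₁, hV, Complex.exp_add, Complex.exp_sum]
      congr 1
      unfold ST_W
      refine Finset.prod_congr rfl fun i _ => ?_
      rw [Complex.exp_add, (ST_log (hc i) (ha i)).2]
      have h5 : Complex.exp (2 * Real.pi * Complex.I * ((s : ℂ) + y₁ * Complex.I)) =
        ST_e ((s : ℂ) + y₁ * Complex.I) := rfl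
      rw [h5]
      linear_combination (ST_e_sub (k i) ((s : ℂ) + y₁ * Complex.I))
    · intro s
      have h3 : (((s + 1 : ℝ) : ℂ) + y₁ * Complex.I) = (s : ℂ) + y₁ * Complex.I + 1 := by
        push_cast
        ring
      have h4 : ∀ i, ST_e (k i - ((s : ℂ) + y₁ * Complex.I + 1)) = ST_e (k i - ((s : ℂ) + y₁ * Complex.I)) := by
        intro i
        rw [← ST_e_per]
        congr 1
        ring
      simp only [h3, hu, h4, Finset.sum_add_distrib, Finset.sum_const, Finset.card_univ, Fintype.card_fin,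
        nsmul_eq_mul]
      ring
  have h6 : (m : ℂ) * (2 * Real.pi * Complex.I) = 0 := by
    linear_combination e2 - e1
  rcases mul_eq_zero.1 h6 with h7 | h7
  · exact_mod_cast h7
  · exact absurd h7 Complex.two_pi_I_ne_zero

end TOR
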